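import Pool.Agent.H250Z.WvN.Path

/-! Cayley transform and the abstract obstruction theorem. -/

set_option autoImplicit false

open Filter Topology Complex

namespace Pool.Agent.H250Z.WvN

section CStar

variable {A : Type*} [CStarAlgebra A]

/-- resolvent at `i` -/
noncomputable def res (T : A) : A := cfc (fun z : ℂ => (z - I)⁻¹) T

lemma spec_real {T : A} (hT : IsSelfAdjoint T) {z : ℂ} (hz : z ∈ spectrum ℂ T) : z.im = 0 := by
  have := hT.mem_spectrum_eq_re hz
  rw [this]; simp

lemma sub_I_ne {z : ℂ} (hz : z.im = 0) : z - I ≠ 0 := by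
  intro h
  have := congrArg Complex.im h
  simp [hz] at this

lemma res_cont {T : A} (hT : IsSelfAdjoint T) :
    ContinuousOn (fun z : ℂ => (z - I)⁻¹) (spectrum ℂ T) :=
  ContinuousOn.inv₀ (by fun_prop) fun _ hz => sub_I_ne (spec_real hT hz)

lemma cfc_sub_I {T : A} (hT : IsSelfAdjoint T) :
    cfc (fun z : ℂ => z - I) T = T - I • (1 : A) := by
  have hn : IsStarNormal T := hT.isStarNormal
  rw [cfc_sub (fun z : ℂ => z) (fun _ => I) T, cfc_id' ℂ T, cfc_const I T,
    Algebra.algebraMap_eq_smul_one]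

lemma mul_res {T : A} (hT : IsSelfAdjoint T) : (T - I • (1 : A)) * res T = 1 := by
  have hn : IsStarNormal T := hT.isStarNormal
  rw [← cfc_sub_I hT, res, ← cfc_mul _ _ T (by fun_prop) (res_cont hT), ← cfc_one ℂ T]
  exact cfc_congr fun z hz => mul_inv_cancel₀ (sub_I_ne (spec_real hT hz))

lemma res_mul {T : A} (hT : IsSelfAdjoint T) : res T * (T - I • (1 : A)) = 1 := by
  have hn : IsStarNormal T := hT.isStarNormal
  rw [← cfc_sub_I hT, res, ← cfc_mul _ _ T (res_cont hT) (by fun_prop), ← cfc_one ℂ T]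
  exact cfc_congr fun z hz => inv_mul_cancel₀ (sub_I_ne (spec_real hT hz))

lemma norm_res {T : A} (hT : IsSelfAdjoint T) : ‖res T‖ ≤ 1 := by
  refine norm_cfc_le zero_le_one fun z hz => ?_
  have h := spec_real hT hz
  rw [norm_inv]
  apply inv_le_one_of_one_le₀
  have := Complex.abs_im_le_norm (z - I)
  simpa [h] using this

lemma res_sub {T T' : A} (hT : IsSelfAdjoint T) (hT' : IsSelfAdjoint T') :
    ‖res T - res T'‖ ≤ ‖T - T'‖ := by
  have e : res T - res T' = res T * (T' - T) * res T' := by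
    have h1 := mul_res hT'
    have h2 := res_mul hT
    calc res T - res T' = res T * ((T' - I • (1 : A)) * res T')
          - (res T * (T - I • (1 : A))) * res T' := by rw [h1, h2, mul_one, one_mul]
      _ = _ := by noncomm_ring
  rw [e, norm_sub_rev T T']
  calc ‖res T * (T' - T) * res T'‖ ≤ ‖res T‖ * ‖T' - T‖ * ‖res T'‖ :=
        (norm_mul_le _ _).trans (mul_le_mul_of_nonneg_right (norm_mul_le _ _) (norm_nonneg _))
    _ ≤ 1 * ‖T' - T‖ * 1 := by gcongr; exacts [norm_res hT, norm_res hT']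
    _ = _ := by ring

/-- Cayley transform -/
noncomputable def cay (T : A) : A := 1 + (2 * I) • res T

lemma star_res_mul {T : A} (hT : IsSelfAdjoint T) : star (res T) * (T + I • (1 : A)) = 1 := by
  have := congrArg star (mul_res hT)
  rw [star_mul, star_sub, hT.star_eq, star_smul, star_one] at this
  simpa using this

lemma mul_star_res {T : A} (hT : IsSelfAdjoint T) : (T + I • (1 : A)) * star (res T) = 1 := by
  have := congrArg star (res_mul hT)
  rw [star_mul, star_sub, hT.star_eq, star_smul, star_one] at this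
  simpa using this

lemma cay_eq {T : A} (hT : IsSelfAdjoint T) : cay T = (T + I • (1 : A)) * res T := by
  have h := mul_res hT
  have e2 : T * res T = 1 + I • res T := by
    rw [← h]; simp only [sub_mul, smul_mul_assoc, one_mul]; abel
  rw [cay, add_mul, smul_mul_assoc, one_mul, e2]
  module

lemma cay_eq' {T : A} (hT : IsSelfAdjoint T) : cay T = res T * (T + I • (1 : A)) := by
  have h := res_mul hT
  have e1 : res T * T = 1 + I • res T := by
    rw [← h]; simp only [mul_sub, mul_smul_comm, mul_one]; abel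
  rw [cay, mul_add, mul_smul_comm, mul_one, e1]
  module

lemma cay_mul_star {T : A} (hT : IsSelfAdjoint T) : cay T * star (cay T) = 1 := by
  have e : star (cay T) = (T - I • (1 : A)) * star (res T) := by
    rw [cay_eq' hT, star_mul, star_add, hT.star_eq, star_smul, star_one]
    simp [sub_eq_add_neg]
  rw [e, cay_eq hT, mul_assoc, ← mul_assoc (res T), res_mul hT, one_mul, mul_star_res hT]

lemma norm_cay {T : A} (hT : IsSelfAdjoint T) : ‖cay T‖ ≤ 1 := by
  have h1 : ‖cay T‖ * ‖cay T‖ = ‖cay T * star (cay T)‖ := (CStarRing.norm_self_mul_star).symm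
  rw [cay_mul_star hT] at h1
  have h2 : ‖(1 : A)‖ ≤ 1 := by
    have h3 : ‖(1 : A)‖ * ‖(1 : A)‖ = ‖(1 : A) * star (1 : A)‖ :=
      (CStarRing.norm_self_mul_star).symm
    rw [star_one, mul_one] at h3
    nlinarith [norm_nonneg (1 : A)]
  nlinarith [norm_nonneg (cay T)]

/-- minus the squared Cayley transform -/
noncomputable def uu (T : A) : A := -(cay T * cay T)

lemma uu_mul_star {T : A} (hT : IsSelfAdjoint T) : uu T * star (uu T) = 1 := by
  rw [uu, star_neg, star_mul, neg_mul_neg, mul_assoc, ← mul_assoc (cay T) (star (cay T)),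
    cay_mul_star hT, one_mul, cay_mul_star hT]

lemma norm_uu {T : A} (hT : IsSelfAdjoint T) : ‖uu T‖ ≤ 1 := by
  rw [uu, norm_neg]
  have := norm_cay hT
  calc ‖cay T * cay T‖ ≤ ‖cay T‖ * ‖cay T‖ := norm_mul_le _ _
    _ ≤ 1 * 1 := by gcongr
    _ = 1 := by ring

lemma uu_sub {T T' : A} (hT : IsSelfAdjoint T) (hT' : IsSelfAdjoint T') :
    ‖uu T - uu T'‖ ≤ 4 * ‖T - T'‖ := by
  have h1 : ‖cay T - cay T'‖ ≤ 2 * ‖T - T'‖ := by
    have : cay T - cay T' = (2 * I) • (res T - res T') := by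
      rw [cay, cay]; module
    rw [this, norm_smul]
    have h2 : ‖(2 * I : ℂ)‖ = 2 := by simp
    rw [h2]
    have := res_sub hT hT'
    gcongr
  have e : uu T - uu T' = -(cay T * (cay T - cay T') + (cay T - cay T') * cay T') := by
    rw [uu, uu]; noncomm_ring
  rw [e, norm_neg]
  have h2 := norm_cay hT
  have h3 := norm_cay hT'
  calc _ ≤ ‖cay T‖ * ‖cay T - cay T'‖ + ‖cay T - cay T'‖ * ‖cay T'‖ :=
        (norm_add_le _ _).trans (add_le_add (norm_mul_le _ _) (norm_mul_le _ _))
    _ ≤ 1 * (2 * ‖T - T'‖) + (2 * ‖T - T'‖) * 1 := by gcongr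
    _ = _ := by ring

lemma uu_eq {T : A} (hT : IsSelfAdjoint T) :
    uu T = 1 + (2 : ℂ) • (res T * res T * (1 - T * T)) := by
  have h := res_mul hT
  have h1 : res T * T = 1 + I • res T := by
    rw [← h]; simp only [mul_sub, mul_smul_comm, mul_one]; abel
  have h2 : res T * res T * (T * T) = 1 + (2 * I) • res T - res T * res T := by
    calc res T * res T * (T * T) = res T * (res T * T) * T := by noncomm_ring
      _ = res T * T + I • (res T * (res T * T)) := by
        rw [h1]; simp only [mul_add, add_mul, mul_one, mul_smul_comm, smul_mul_assoc, mul_assoc, h1]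
      _ = _ := by
        rw [h1]; simp only [mul_add, mul_one, mul_smul_comm, smul_add, smul_smul, I_mul_I]
        module
  rw [mul_sub, h2, uu, cay]
  simp only [mul_add, add_mul, mul_one, one_mul, mul_smul_comm, smul_mul_assoc, smul_smul,
    smul_add]
  have : (2 * I * (2 * I) : ℂ) = -4 := by
    calc (2 * I * (2 * I) : ℂ) = 4 * (I * I) := by ring
      _ = -4 := by rw [I_mul_I]; ring
  rw [this]
  module

lemma uu_eq' {T : A} (hT : IsSelfAdjoint T) :
    uu T = 1 + (2 : ℂ) • ((1 - T * T) * (res T * res T)) := by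
  have h := res_mul hT
  have h' := mul_res hT
  have h1 : res T * T = T * res T := by
    have e1 : res T * T = 1 + I • res T := by
      rw [← h]; simp only [mul_sub, mul_smul_comm, mul_one]; abel
    have e2 : T * res T = 1 + I • res T := by
      rw [← h']; simp only [sub_mul, smul_mul_assoc, one_mul]; abel
    rw [e1, e2]
  have hc : Commute (res T) T := h1
  have hc2 : Commute (res T * res T) (1 - T * T) :=
    (Commute.one_right _).sub_right ((hc.mul_right hc).mul_left (hc.mul_right hc))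
  rw [uu_eq hT, hc2.eq]

lemma star_uu_eq {T : A} (hT : IsSelfAdjoint T) :
    star (uu T) = 1 + (2 : ℂ) • (star (res T) * star (res T) * (1 - T * T)) := by
  rw [uu_eq' hT, star_add, star_one, star_smul, star_mul, star_mul, star_sub, star_one, star_mul,
    hT.star_eq]
  simp

lemma exists_sgn {S : A} (hS : IsSelfAdjoint S) (hfin : (spectrum ℂ S).Finite) :
    ∃ g r : ℂ → ℂ, IsSelfAdjoint (cfc g S) ∧ cfc g S * cfc g S = 1 ∧ ‖cfc g S‖ ≤ 1 ∧
      ‖cfc r S‖ ≤ 1 ∧ cfc g S - S = cfc r S * (1 - S * S) := by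
  have hn : IsStarNormal S := hS.isStarNormal
  have hc : ∀ f : ℂ → ℂ, ContinuousOn f (spectrum ℂ S) := fun f => hfin.continuousOn f
  let g : ℂ → ℂ := fun z => if 0 ≤ z.re then 1 else -1
  let r : ℂ → ℂ := fun z => g z / (1 + (|z.re| : ℝ))
  have hg : ∀ z, ‖g z‖ = 1 := fun z => by
    simp only [g]; split_ifs <;> simp
  refine ⟨g, r, ?_, ?_, ?_, ?_, ?_⟩
  · rw [IsSelfAdjoint, ← cfc_star]
    refine cfc_congr fun z _ => ?_
    simp only [g]; split_ifs <;> simp
  · rw [← cfc_mul _ _ S (hc _) (hc _), ← cfc_one ℂ S]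
    refine cfc_congr fun z _ => ?_
    simp only [g]; split_ifs <;> simp
  · exact norm_cfc_le zero_le_one fun z _ => (hg z).le
  · refine norm_cfc_le zero_le_one fun z _ => ?_
    simp only [r, norm_div, hg]
    have h1 : ‖(1 + ((|z.re| : ℝ) : ℂ))‖ = 1 + |z.re| := by
      rw [← Complex.ofReal_one, ← Complex.ofReal_add, Complex.norm_real, Real.norm_eq_abs,
        abs_of_nonneg (by positivity)]
    rw [h1]
    exact div_le_one_of_le₀ (by linarith [abs_nonneg z.re]) (by positivity)
  · have e1 : (1 : A) - S * S = cfc (fun z : ℂ => 1 - z * z) S := by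
      rw [cfc_sub _ _ S (hc _) (hc _), cfc_mul _ _ S (hc _) (hc _), cfc_id' ℂ S, cfc_const_one ℂ S]
    have e2 : cfc g S - S = cfc (fun z : ℂ => g z - z) S := by
      rw [cfc_sub _ _ S (hc _) (hc _), cfc_id' ℂ S]
    rw [e1, e2, ← cfc_mul _ _ S (hc _) (hc _)]
    refine cfc_congr fun z hz => ?_
    have hz' := hS.mem_spectrum_eq_re hz
    obtain ⟨t, rfl⟩ : ∃ t : ℝ, z = t := ⟨z.re, hz'⟩
    have hne : (1 + ((|t| : ℝ) : ℂ)) ≠ 0 := by
      rw [← Complex.ofReal_one, ← Complex.ofReal_add, Complex.ofReal_ne_zero]; positivity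
    simp only [r, g, ofReal_re]
    split_ifs with h
    · rw [abs_of_nonneg h] at hne ⊢
      field_simp; ring
    · rw [abs_of_neg (not_le.1 h)] at hne ⊢
      push_cast at hne ⊢
      field_simp; ring

end CStar

variable {X : Type*} [NormedAddCommGroup X] [InnerProductSpace ℂ X] [CompleteSpace X]
variable {P : ℕ → X →L[ℂ] X}

lemma M1.star_res (hP : PFam P) {T : X →L[ℂ] X} (hT : IsSelfAdjoint T) (hM : M1 P T) :
    M1 P (star (res T)) := by
  rw [res, ← cfc_star]; exact hM.cfc hP _ hT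

lemma step_uu (hP : PFam P) {T T' i : X →L[ℂ] X} (hT : IsSelfAdjoint T) (hT' : IsSelfAdjoint T')
    (hM : M1 P T) (hi : I1 P i) (hTi : ‖1 - T * T - i‖ ≤ 1 / 8) (hTT : ‖T' - T‖ ≤ 1 / 16) :
    (Pp P (uu T) ↔ Pp P (uu T')) := by
  have hR := hM.star_res hP hT
  have hRn : ‖star (res T)‖ ≤ 1 := by rw [norm_star]; exact norm_res hT
  refine step hP (uu_mul_star hT) (norm_uu hT) (by rw [norm_star]; exact norm_uu hT)
    (i := (2 : ℂ) • (star (res T) * star (res T) * i))
    ((hi.mul_left hP (hR.mul hP hR)).smul hP _) ?_ ((uu_sub hT' hT).trans (by linarith))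
  have e : star (uu T) - 1 - (2 : ℂ) • (star (res T) * star (res T) * i)
      = (2 : ℂ) • (star (res T) * star (res T) * (1 - T * T - i)) := by
    rw [star_uu_eq hT, mul_sub _ (1 - T * T) i]; module
  rw [e, norm_smul]
  have := norm_mul3 _ _ _ hRn hRn hTi
  simp only [Complex.norm_ofNat]
  linarith

theorem obstruction (hP : PFam P) {T : X →L[ℂ] X} (hT : IsSelfAdjoint T) (hM : M1 P T)
    (hI : I1 P (1 - T * T)) (hnot : ¬ Pp P (uu T)) :
    ∃ δ > 0, ∀ S : X →L[ℂ] X, IsSelfAdjoint S → M1 P S → (spectrum ℂ S).Finite →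
      ¬ ‖T - S‖ < δ := by
  set C := ‖T‖ with hC
  have hC0 : 0 ≤ C := norm_nonneg _
  refine ⟨1 / (8 * (2 * C + 2) ^ 2), by positivity, fun S hS hSM hfin hδ => hnot ?_⟩
  set δ := 1 / (8 * (2 * C + 2) ^ 2) with hδdef
  have hδ0 : 0 < δ := by positivity
  have hδ1 : δ * (8 * (2 * C + 2) ^ 2) = 1 := by rw [hδdef]; field_simp
  have hδ2 : δ ≤ 1 := by nlinarith
  obtain ⟨g, r, hGs, hGG, hGn, hrn, hGS⟩ := exists_sgn hS hfin
  have hGM : M1 P (cfc g S) := hSM.cfc hP g hS
  have hrM : M1 P (cfc r S) := hSM.cfc hP r hS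
  set G := cfc g S
  set R := cfc r S
  set j := R * (1 - T * T) with hj
  set d := R * (T * (T - S) + (T - S) * S) + (S - T) with hd
  have hjI : I1 P j := hI.mul_left hP hrM
  have hGT : G - T = j + d := by
    have : G = R * (1 - S * S) + S := by rw [← hGS]; abel
    rw [this, hj, hd]; noncomm_ring
  have hSn : ‖S‖ ≤ C + 1 := by
    have : S = T - (T - S) := by abel
    calc ‖S‖ = ‖T - (T - S)‖ := by rw [← this]
      _ ≤ ‖T‖ + ‖T - S‖ := norm_sub_le _ _
      _ ≤ C + 1 := by linarith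
  have hdn : ‖d‖ ≤ (2 * C + 2) * δ := by
    have h1 := norm_mul2 T (T - S) le_rfl hδ.le
    have h2 := norm_mul2 (T - S) S hδ.le hSn
    have h3 := norm_mul2 _ _ hrn ((norm_add_le _ _).trans (add_le_add h1 h2))
    have h4 : ‖S - T‖ ≤ δ := by rw [norm_sub_rev]; exact hδ.le
    have := (norm_add_le _ _).trans (add_le_add h3 h4)
    rw [hd]; linarith
  let Tt : ℝ → X →L[ℂ] X := fun t => T + (t : ℂ) • (G - T)
  have hTs : ∀ t, IsSelfAdjoint (Tt t) := fun t => by
    simp only [Tt, IsSelfAdjoint, star_add, star_smul, star_sub, hT.star_eq, hGs.star_eq]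
    simp
  have hTM : ∀ t, M1 P (Tt t) := fun t => hM.add ((hGM.sub hM).smul _)
  have hTn : ∀ t, 0 ≤ t → t ≤ 1 → ‖Tt t‖ ≤ C + 1 := fun t h0 h1 => by
    have e : Tt t = ((1 - t : ℝ) : ℂ) • T + (t : ℂ) • G := by
      simp only [Tt]; push_cast; module
    rw [e]
    refine (norm_add_le _ _).trans ?_
    rw [norm_smul, norm_smul, Complex.norm_real, Complex.norm_real, Real.norm_eq_abs,
      Real.norm_eq_abs, abs_of_nonneg h0, abs_of_nonneg (by linarith)]
    nlinarith [norm_nonneg G]
  have hstep : ∀ t s, 0 ≤ t → t ≤ 1 → ‖Tt s - Tt t‖ ≤ 1 / 16 →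
      (Pp P (uu (Tt t)) ↔ Pp P (uu (Tt s))) := fun t s h0 h1 hst => by
    refine step_uu hP (hTs t) (hTs s) (hTM t)
      (i := (1 - T * T) - (t : ℂ) • (T * j + j * Tt t))
      (hI.sub hP (((hjI.mul_left hP hM).add (hjI.mul_right hP (hTM t))).smul hP _)) ?_ hst
    have e : 1 - Tt t * Tt t - ((1 - T * T) - (t : ℂ) • (T * j + j * Tt t))
        = -((t : ℂ) • (T * d + d * Tt t)) := by
      have e1 : Tt t * Tt t = T * T + (t : ℂ) • (T * (j + d) + (j + d) * Tt t) := by
        rw [← hGT]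
        conv_lhs => rw [show Tt t * Tt t = (T + (t : ℂ) • (G - T)) * Tt t from rfl, add_mul,
          show T * Tt t = T * (T + (t : ℂ) • (G - T)) from rfl, mul_add, mul_smul_comm,
          smul_mul_assoc]
        module
      rw [e1, mul_add, add_mul]; module
    rw [e, norm_neg, norm_smul, Complex.norm_real, Real.norm_eq_abs, abs_of_nonneg h0]
    have h2 := norm_mul2 T d le_rfl hdn
    have h3 := norm_mul2 d _ hdn (hTn t h0 h1)
    have h4 := (norm_add_le _ _).trans (add_le_add h2 h3)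
    have h5 : ‖T * d + d * Tt t‖ ≤ 1 / 8 := by nlinarith
    nlinarith [norm_nonneg (T * d + d * Tt t)]
  obtain ⟨N, hN⟩ := exists_nat_gt (16 * ‖G - T‖)
  have hN0 : (0 : ℝ) < N := lt_of_le_of_lt (by positivity) hN
  have hind : ∀ k : ℕ, k ≤ N → (Pp P (uu (Tt 0)) ↔ Pp P (uu (Tt (k / N)))) := by
    intro k
    induction k with
    | zero => intro _; simp
    | succ k ih =>
      intro hk
      have hk' : (k : ℝ) + 1 ≤ N := by exact_mod_cast hk
      rw [ih (by omega)]
      refine hstep _ _ (by positivity) (div_le_one_of_le₀ (by linarith) hN0.le) ?_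
      have e : Tt (((k + 1 : ℕ) : ℝ) / N) - Tt (k / N) = ((1 / N : ℝ) : ℂ) • (G - T) := by
        simp only [Tt]; push_cast
        rw [add_div]; module
      rw [e, norm_smul, Complex.norm_real, Real.norm_eq_abs, abs_of_nonneg (by positivity)]
      rw [one_div, inv_mul_le_iff₀ hN0]; linarith
  have h0 : Tt 0 = T := by simp [Tt]
  have h1 : Tt ((N : ℝ) / N) = G := by rw [div_self hN0.ne']; simp [Tt]
  have := hind N le_rfl
  rw [h0, h1] at this
  rw [this, uu_eq hGs, hGG]
  simpa using Pp_one hP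

end Pool.Agent.H250Z.WvN
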