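import Pool.Agent.H250Z.WvN.Main

/-! Translation to the frozen statement's description of `A ⊗ K` and its multiplier algebra. -/

set_option autoImplicit false

open Filter Topology

namespace Pool.Agent.H250Z.WvN

/-- all bounded operators, as a von Neumann algebra -/
noncomputable def Atop : VonNeumannAlgebra HH where
  toStarSubalgebra := ⊤
  centralizer_centralizer' := Set.eq_univ_of_univ_subset Set.subset_centralizer_centralizer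

lemma tail_eq (y : BH) (N : ℕ) : ∑' i : ℕ, ‖y (i + N)‖ ^ 2 = ‖(1 - PP N) y‖ ^ 2 := by
  have h := L2.hasSum_sq ((1 - PP N) y)
  rw [one_sub_PP] at h ⊢
  have h2 := (hasSum_nat_add_iff' N).2 h
  have h3 : ∑ i ∈ Finset.range N, ‖(proj HH (fun k : ℕ => ¬ k < N) y) i‖ ^ 2 = 0 := by
    refine Finset.sum_eq_zero fun i hi => ?_
    have := Finset.mem_range.1 hi
    simp [this]
  rw [h3, sub_zero] at h2
  rw [← h2.tsum_eq]
  refine tsum_congr fun i => ?_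
  simp

/-- rows decay -/
def J1 (a : BH →L[ℂ] BH) : Prop := ∀ ε > 0, ∀ᶠ N in atTop, ‖(1 - PP N) * a‖ ≤ ε

lemma tail_mono {N N' : ℕ} (h : N ≤ N') (a : BH →L[ℂ] BH) :
    ‖(1 - PP N') * a‖ ≤ ‖(1 - PP N) * a‖ := by
  have e : (1 - PP N') * a = (1 - PP N') * ((1 - PP N) * a) := by
    rw [← mul_assoc, mul_sub, mul_one, sub_mul 1 (PP N') (PP N), PP_mul h]; simp
  rw [e]
  simpa using norm_mul2 _ _ (pfam.norm_one_sub_le N') (le_refl ‖(1 - PP N) * a‖)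

lemma tail_iff (a : BH →L[ℂ] BH) :
    (∀ ε : ℝ, 0 < ε → ∃ N : ℕ, ∀ x : BH, ‖x‖ ≤ 1 →
      (∑' i : ℕ, ‖(a x) (i + N)‖ ^ 2) ≤ ε ∧ (∑' i : ℕ, ‖((star a) x) (i + N)‖ ^ 2) ≤ ε) ↔
    J1 a ∧ J1 (star a) := by
  have key : ∀ (b : BH →L[ℂ] BH) (N : ℕ) (ε : ℝ), 0 < ε →
      (∀ x : BH, ‖x‖ ≤ 1 → (∑' i : ℕ, ‖(b x) (i + N)‖ ^ 2) ≤ ε ^ 2) → ‖(1 - PP N) * b‖ ≤ ε := by
    intro b N ε hε h
    refine ContinuousLinearMap.opNorm_le_of_unit_norm hε.le fun x hx => ?_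
    have := h x hx.le
    rw [tail_eq] at this
    exact (pow_le_pow_iff_left₀ (norm_nonneg _) hε.le two_ne_zero).1 this
  have key2 : ∀ (b : BH →L[ℂ] BH) (N : ℕ) (ε : ℝ), 0 < ε → ‖(1 - PP N) * b‖ ≤ √ε →
      ∀ x : BH, ‖x‖ ≤ 1 → (∑' i : ℕ, ‖(b x) (i + N)‖ ^ 2) ≤ ε := by
    intro b N ε hε h x hx
    rw [tail_eq]
    have h1 : ‖(1 - PP N) (b x)‖ ≤ √ε := by
      have := ((1 - PP N) * b).le_opNorm x
      calc ‖(1 - PP N) (b x)‖ ≤ ‖(1 - PP N) * b‖ * ‖x‖ := this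
        _ ≤ √ε * 1 := by gcongr
        _ = √ε := mul_one _
    calc ‖(1 - PP N) (b x)‖ ^ 2 ≤ √ε ^ 2 := by gcongr
      _ = ε := Real.sq_sqrt hε.le
  constructor
  · intro h
    constructor
    · intro ε hε
      obtain ⟨N, hN⟩ := h (ε ^ 2) (by positivity)
      filter_upwards [eventually_ge_atTop N] with N' hN'
      exact (tail_mono hN' _).trans (key _ N ε hε fun x hx => (hN x hx).1)
    · intro ε hε
      obtain ⟨N, hN⟩ := h (ε ^ 2) (by positivity)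
      filter_upwards [eventually_ge_atTop N] with N' hN'
      exact (tail_mono hN' _).trans (key _ N ε hε fun x hx => (hN x hx).2)
  · rintro ⟨h1, h2⟩ ε hε
    obtain ⟨N, h3, h4⟩ := ((h1 (√ε) (by positivity)).and (h2 (√ε) (by positivity))).exists
    exact ⟨N, fun x hx => ⟨key2 _ N ε hε h3 x hx, key2 _ N ε hε h4 x hx⟩⟩

lemma J1.mul_right {a : BH →L[ℂ] BH} (ha : J1 a) (b : BH →L[ℂ] BH) : J1 (a * b) := by
  intro ε hε
  filter_upwards [ha (ε / (‖b‖ + 1)) (by positivity)] with N hN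
  rw [← mul_assoc]
  have := norm_mul2 _ b hN (show ‖b‖ ≤ ‖b‖ + 1 by linarith)
  rwa [div_mul_cancel₀ _ (by positivity)] at this

lemma J1.mul_left {a r : BH →L[ℂ] BH} (ha : J1 a) (hr : M1 PP r) : J1 (r * a) := by
  intro ε hε
  obtain ⟨l, hl⟩ := (ha (ε / 2 / (‖r‖ + 1)) (by positivity)).exists
  filter_upwards [hr l (ε / 2 / (‖a‖ + 1)) (by positivity)] with N hN
  have e : (1 - PP N) * (r * a)
      = ((1 - PP N) * r * PP l) * a + (1 - PP N) * r * ((1 - PP l) * a) := by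
    noncomm_ring
  rw [e]
  have h1 := norm_mul2 _ a hN (show ‖a‖ ≤ ‖a‖ + 1 by linarith)
  have h2 := norm_mul3 _ r _ (pfam.norm_one_sub_le N) (show ‖r‖ ≤ ‖r‖ + 1 by linarith) hl
  have e1 : ε / 2 / (‖a‖ + 1) * (‖a‖ + 1) = ε / 2 := by field_simp
  have e2 : 1 * (‖r‖ + 1) * (ε / 2 / (‖r‖ + 1)) = ε / 2 := by field_simp
  exact (norm_add_le _ _).trans (by linarith)

lemma J1_PP (m : ℕ) : J1 (PP m) := by
  intro ε hε
  filter_upwards [eventually_ge_atTop m] with N hN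
  rw [sub_mul, one_mul, PP_mul hN, sub_self, norm_zero]; exact hε.le

lemma comm_cond (S : BH →L[ℂ] BH) (i j : ℕ) (b : HH →L[ℂ] HH) (hb : b ∈ Atop.commutant)
    (x : HH) : (S (lp.single 2 j (b x) : BH)) i = b ((S (lp.single 2 j x : BH)) i) := by
  have := VonNeumannAlgebra.mem_commutant_iff.1 hb
    ((lp.evalCLM ℂ (fun _ : ℕ => HH) 2 i) ∘L (S ∘L
      (lp.singleContinuousLinearMap ℂ (fun _ : ℕ => HH) 2 j))) (by
        show _ ∈ (⊤ : StarSubalgebra ℂ (HH →L[ℂ] HH)); trivial)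
  exact congrArg (fun T : HH →L[ℂ] HH => T x) this

/-- `A ⊗ K` as in the frozen statement -/
def JJ : Set (BH →L[ℂ] BH) :=
  {S | (∀ i j : ℕ, ∀ b ∈ Atop.commutant, ∀ x : HH,
      (S (lp.single 2 j (b x) : BH)) i = b ((S (lp.single 2 j x : BH)) i)) ∧
    ∀ ε : ℝ, 0 < ε → ∃ N : ℕ, ∀ x : BH, ‖x‖ ≤ 1 →
      (∑' i : ℕ, ‖(S x) (i + N)‖ ^ 2) ≤ ε ∧ (∑' i : ℕ, ‖((star S) x) (i + N)‖ ^ 2) ≤ ε}

lemma mem_JJ {S : BH →L[ℂ] BH} : S ∈ JJ ↔ J1 S ∧ J1 (star S) := by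
  rw [← tail_iff]
  exact ⟨fun h => h.2, fun h => ⟨fun i j b hb x => comm_cond S i j b hb x, h⟩⟩

lemma TT_mem : ∀ S ∈ JJ, TT * S ∈ JJ ∧ S * TT ∈ JJ := by
  intro S hS
  rw [mem_JJ] at hS
  rw [mem_JJ, mem_JJ, star_mul, star_mul, TT_sa.star_eq]
  exact ⟨⟨hS.1.mul_left M1_TT, hS.2.mul_right _⟩, hS.1.mul_right _, hS.2.mul_left M1_TT⟩

lemma M1_of_mem {S : BH →L[ℂ] BH} (h : ∀ X ∈ JJ, S * X ∈ JJ ∧ X * S ∈ JJ) : M1 PP S := by
  intro m ε hε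
  have h1 := (mem_JJ.1 (h (PP m) (mem_JJ.2 ⟨J1_PP m, by rw [star_PP]; exact J1_PP m⟩)).1).1
  filter_upwards [h1 ε hε] with N hN
  rwa [mul_assoc]

end Pool.Agent.H250Z.WvN
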