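import Mathlib

/-! Index-zero class modulo compact operators, and the abstract homotopy argument. -/

set_option autoImplicit false

open Filter Topology

namespace Pool.Agent.H250Z.WvN

section General

variable {A : Type*} [CStarAlgebra A]

/-- `S ∩ S*` as a star subalgebra. -/
def starCore (S : Subalgebra ℂ A) : StarSubalgebra ℂ A where
  carrier := {a | a ∈ S ∧ star a ∈ S}
  mul_mem' := fun {a b} ha hb => ⟨S.mul_mem ha.1 hb.1, by
    rw [star_mul]; exact S.mul_mem hb.2 ha.2⟩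
  add_mem' := fun {a b} ha hb => ⟨S.add_mem ha.1 hb.1, by
    rw [star_add]; exact S.add_mem ha.2 hb.2⟩
  algebraMap_mem' := fun r => ⟨S.algebraMap_mem r, by
    rw [← algebraMap_star_comm]; exact S.algebraMap_mem _⟩
  star_mem' := fun {a} ha => ⟨ha.2, by rw [star_star]; exact ha.1⟩

lemma isClosed_starCore (S : Subalgebra ℂ A) (hS : IsClosed (S : Set A)) :
    IsClosed (starCore S : Set A) :=
  hS.inter (hS.preimage continuous_star)

lemma cfc_mem_of_closed (S : Subalgebra ℂ A) (hS : IsClosed (S : Set A)) (f : ℂ → ℂ) {a : A}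
    (ha : a ∈ S) (ha' : star a ∈ S) : cfc f a ∈ S := by
  have := isClosed_starCore S hS
  have h : cfc f a ∈ starCore S := cfc_mem (𝕜' := ℂ) f (show a ∈ starCore S from ⟨ha, ha'⟩)
  exact h.1

lemma cfcHom_mem_of_closed (S : Subalgebra ℂ A) (hS : IsClosed (S : Set A)) {a : A}
    (hn : IsStarNormal a) (f : C(spectrum ℂ a, ℂ))
    (ha : a ∈ S) (ha' : star a ∈ S) : cfcHom hn f ∈ S := by
  have hc := isClosed_starCore S hS
  have h1 : cfcHom hn f ∈ StarAlgebra.elemental ℂ a := cfcHom_mem_elemental hn f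
  have h2 : StarAlgebra.elemental ℂ a ≤ starCore S :=
    StarAlgebra.elemental.le_of_mem hc (show a ∈ starCore S from ⟨ha, ha'⟩)
  exact (h2 h1).1

end General

variable {X : Type*} [NormedAddCommGroup X] [InnerProductSpace ℂ X] [CompleteSpace X]

/-- compact operators -/
def Cpt (a : X →L[ℂ] X) : Prop := IsCompactOperator a

namespace Cpt

omit [CompleteSpace X] in
lemma zero : Cpt (0 : X →L[ℂ] X) := isCompactOperator_zero

omit [CompleteSpace X] in
lemma add {a b : X →L[ℂ] X} (ha : Cpt a) (hb : Cpt b) : Cpt (a + b) :=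
  IsCompactOperator.add ha hb

omit [CompleteSpace X] in
lemma neg {a : X →L[ℂ] X} (ha : Cpt a) : Cpt (-a) := IsCompactOperator.neg ha

omit [CompleteSpace X] in
lemma sub {a b : X →L[ℂ] X} (ha : Cpt a) (hb : Cpt b) : Cpt (a - b) :=
  IsCompactOperator.sub ha hb

omit [CompleteSpace X] in
lemma mul_left {a : X →L[ℂ] X} (ha : Cpt a) (b : X →L[ℂ] X) : Cpt (b * a) :=
  IsCompactOperator.clm_comp ha b

omit [CompleteSpace X] in
lemma mul_right {a : X →L[ℂ] X} (ha : Cpt a) (b : X →L[ℂ] X) : Cpt (a * b) :=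
  IsCompactOperator.comp_clm ha b

omit [CompleteSpace X] in
lemma smul {a : X →L[ℂ] X} (ha : Cpt a) (c : ℂ) : Cpt (c • a) :=
  IsCompactOperator.smul ha c

omit [CompleteSpace X] in
lemma of_eq {a b : X →L[ℂ] X} (ha : Cpt a) (h : b = a) : Cpt b := h ▸ ha

lemma isClosed : IsClosed {a : X →L[ℂ] X | Cpt a} := isClosed_setOfPred_isCompactOperator

lemma of_approx {a : X →L[ℂ] X} (h : ∀ ε > 0, ∃ K, Cpt K ∧ ‖a - K‖ ≤ ε) : Cpt a := by
  have : a ∈ closure {a : X →L[ℂ] X | Cpt a} := by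
    rw [Metric.mem_closure_iff]
    intro ε hε
    obtain ⟨K, hK, h2⟩ := h (ε / 2) (by positivity)
    exact ⟨K, hK, by rw [dist_eq_norm]; linarith⟩
  rwa [isClosed.closure_eq] at this

end Cpt

/-- invertible plus compact -/
def Ind0 (a : X →L[ℂ] X) : Prop := ∃ g : (X →L[ℂ] X)ˣ, Cpt (a - (g : X →L[ℂ] X))

namespace Ind0

omit [CompleteSpace X] in
lemma mul {a b : X →L[ℂ] X} (ha : Ind0 a) (hb : Ind0 b) : Ind0 (a * b) := by
  obtain ⟨g, hg⟩ := ha
  obtain ⟨h, hh⟩ := hb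
  refine ⟨g * h, ((hg.mul_right b).add (hh.mul_left g)).of_eq ?_⟩
  simp only [Units.val_mul]; noncomm_ring

omit [CompleteSpace X] in
lemma congr {a b : X →L[ℂ] X} (hb : Ind0 b) (h : Cpt (a - b)) : Ind0 a := by
  obtain ⟨g, hg⟩ := hb
  exact ⟨g, (h.add hg).of_eq (by abel)⟩

omit [CompleteSpace X] in
lemma of_mul_left {a b : X →L[ℂ] X} (hab : Ind0 (a * b)) (ha : Ind0 a) : Ind0 b := by
  obtain ⟨g, hg⟩ := ha
  obtain ⟨w, hw⟩ := hab
  refine ⟨g⁻¹ * w, ((hw.sub (hg.mul_right b)).mul_left (↑g⁻¹)).of_eq ?_⟩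
  have : (↑g⁻¹ : X →L[ℂ] X) * (↑g * b) = b := by rw [← mul_assoc, Units.inv_mul, one_mul]
  simp only [Units.val_mul, mul_sub, sub_mul, this]; abel

omit [CompleteSpace X] in
lemma of_mul_right {a b : X →L[ℂ] X} (hab : Ind0 (a * b)) (hb : Ind0 b) : Ind0 a := by
  obtain ⟨g, hg⟩ := hb
  obtain ⟨w, hw⟩ := hab
  refine ⟨w * g⁻¹, ((hw.sub (hg.mul_left a)).mul_right (↑g⁻¹)).of_eq ?_⟩
  have : (a * ↑g) * (↑g⁻¹ : X →L[ℂ] X) = a := by rw [mul_assoc, Units.mul_inv, mul_one]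
  simp only [Units.val_mul, mul_sub, sub_mul, this]; abel

lemma of_norm_lt {a d : X →L[ℂ] X} (hd : ‖d‖ < 1) (h : Cpt (a - (1 - d))) : Ind0 a :=
  ⟨Units.oneSub d hd, h⟩

lemma not_of_left_inv {a l : X →L[ℂ] X} (hl : l * a = 1) {v : X} (hv : v ≠ 0) (hlv : l v = 0) :
    ¬ Ind0 a := by
  rintro ⟨g, hg⟩
  have hK : IsCompactOperator ((↑g⁻¹ : X →L[ℂ] X) * (a - (g : X →L[ℂ] X)) : X →L[ℂ] X) := hg.mul_left _
  have hK1 : (↑g⁻¹ : X →L[ℂ] X) * (a - (g : X →L[ℂ] X)) = (↑g⁻¹ : X →L[ℂ] X) * a - 1 := by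
    rw [mul_sub, Units.inv_mul]
  rcases hK.hasEigenvalue_or_mem_resolventSet (μ := (-1 : ℂ)) (by norm_num) with h | h
  · obtain ⟨w, hw⟩ := h.exists_hasEigenvector
    have h1 := hw.apply_eq_smul
    have hw0 := hw.2
    have h2 : ((↑g⁻¹ : X →L[ℂ] X) * a - 1) w = (-1 : ℂ) • w := by rw [← hK1]; exact h1
    have h3 : (↑g⁻¹ : X →L[ℂ] X) (a w) = 0 := by
      have : (↑g⁻¹ : X →L[ℂ] X) (a w) - w = -w := by simpa using h2
      rwa [sub_eq_neg_self] at this
    have h4 : a w = 0 := by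
      have : ((↑g : X →L[ℂ] X) * ↑g⁻¹) (a w) = a w := by rw [Units.mul_inv]; rfl
      rw [← this]; show (↑g : X →L[ℂ] X) ((↑g⁻¹ : X →L[ℂ] X) (a w)) = 0
      rw [h3, map_zero]
    have h5 : (l * a) w = w := by rw [hl]; rfl
    apply hw0
    rw [← h5]; show l (a w) = 0
    rw [h4, map_zero]
  · rw [spectrum.mem_resolventSet_iff, hK1] at h
    have h2 : IsUnit ((↑g⁻¹ : X →L[ℂ] X) * a) := by
      have : algebraMap ℂ (X →L[ℂ] X) (-1) - ((↑g⁻¹ : X →L[ℂ] X) * a - 1)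
          = -((↑g⁻¹ : X →L[ℂ] X) * a) := by
        rw [map_neg, map_one]; abel
      rwa [this, IsUnit.neg_iff] at h
    have h3 : IsUnit a := by
      have := (Units.isUnit g).mul h2
      rwa [← mul_assoc, Units.mul_inv, one_mul] at this
    obtain ⟨u, rfl⟩ := h3
    have h4 : (↑u : X →L[ℂ] X) * l = 1 := by
      have : l = ↑u⁻¹ := by
        calc l = l * (↑u * ↑u⁻¹) := by rw [Units.mul_inv, mul_one]
          _ = ↑u⁻¹ := by rw [← mul_assoc, hl, one_mul]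
      rw [this, Units.mul_inv]
    apply hv
    have : ((↑u : X →L[ℂ] X) * l) v = v := by rw [h4]; rfl
    rw [← this]; show (↑u : X →L[ℂ] X) (l v) = 0
    rw [hlv, map_zero]

end Ind0

end Pool.Agent.H250Z.WvN
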