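import Pool.Agent.H250Z.WvN.Toep

/-! Functions on the circle. -/

set_option autoImplicit false

open Filter Topology Complex

namespace Pool.Agent.H250Z.WvN

/-- real part -/
noncomputable def xx : C(SS, ℂ) := ⟨fun z => ((z : ℂ).re : ℂ), by fun_prop⟩
/-- positive part of the imaginary part -/
noncomputable def yp : C(SS, ℂ) := ⟨fun z => ((max (z : ℂ).im 0 : ℝ) : ℂ), by fun_prop⟩
/-- negative part of the imaginary part -/
noncomputable def ym : C(SS, ℂ) := ⟨fun z => ((max (-(z : ℂ).im) 0 : ℝ) : ℂ), by fun_prop⟩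
/-- the eigenvalue branch crossing zero -/
noncomputable def lam : C(SS, ℂ) := ⟨fun z => (((z : ℂ).re / (1 + max (-(z : ℂ).im) 0) : ℝ) : ℂ),
  continuous_ofReal.comp (Continuous.div (by fun_prop) (by fun_prop) fun z => by positivity)⟩
/-- correction at level zero -/
noncomputable def mu : C(SS, ℂ) := lam - xx - ym
/-- `x + i|y|` -/
noncomputable def zeta : C(SS, ℂ) := xx + I • (yp + ym)
/-- `1` on the upper half circle, `z̄²` on the lower one -/
noncomputable def om : C(SS, ℂ) := star zz * zeta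
/-- `(1 + |y| - i x)/2` -/
noncomputable def eta : C(SS, ℂ) := (1 / 2 : ℂ) • (1 + (yp + ym) - I • xx)
/-- `(1 + |y|)/2` -/
noncomputable def rho : C(SS, ℂ) := (1 / 2 : ℂ) • (1 + (yp + ym))

lemma star_xx : star xx = xx := by ext z; simp [xx]
lemma star_yp : star yp = yp := by ext z; simp [yp]
lemma star_ym : star ym = ym := by ext z; simp [ym]
lemma star_lam : star lam = lam := by
  ext z; simp only [lam, ContinuousMap.star_apply, ContinuousMap.coe_mk, RCLike.star_def, conj_ofReal]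
lemma star_mu : star mu = mu := by rw [mu, star_sub, star_sub, star_lam, star_xx, star_ym]

lemma SS_cases (z : SS) : ∃ x y : ℝ, x ^ 2 + y ^ 2 = 1 ∧ 0 ≤ y ∧ xx z = x ∧
    ((zz z = x + y * I ∧ yp z = y ∧ ym z = 0 ∧ lam z = x) ∨
     (zz z = x - y * I ∧ yp z = 0 ∧ ym z = y ∧ lam z = x / (1 + y))) := by
  have h := re_sq_add_im_sq z
  rcases le_total 0 (z : ℂ).im with h0 | h0
  · refine ⟨(z : ℂ).re, (z : ℂ).im, h, h0, rfl, Or.inl ⟨(re_add_im _).symm, ?_, ?_, ?_⟩⟩
    · simp only [yp, ContinuousMap.coe_mk, max_eq_left h0]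
    · simp only [ym, ContinuousMap.coe_mk, max_eq_right (neg_nonpos.2 h0), ofReal_zero]
    · simp only [lam, ContinuousMap.coe_mk, max_eq_right (neg_nonpos.2 h0), add_zero, div_one]
  · refine ⟨(z : ℂ).re, -(z : ℂ).im, by linarith, by linarith, rfl, Or.inr ⟨?_, ?_, ?_, ?_⟩⟩
    · show (z : ℂ) = _
      push_cast
      rw [neg_mul, sub_neg_eq_add, re_add_im]
    · simp only [yp, ContinuousMap.coe_mk, max_eq_right h0, ofReal_zero]
    · simp only [ym, ContinuousMap.coe_mk, max_eq_left (neg_nonneg.2 h0)]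
    · simp only [lam, ContinuousMap.coe_mk, max_eq_left (neg_nonneg.2 h0)]
      push_cast; rfl

lemma yp_ym : yp * ym = 0 := by
  ext z
  obtain ⟨x, y, h, hy, hx, ⟨h1, h2, h3, h4⟩ | ⟨h1, h2, h3, h4⟩⟩ := SS_cases z <;>
  simp [h2, h3]

lemma yp_mu : yp * mu = 0 := by
  ext z
  obtain ⟨x, y, h, hy, hx, ⟨h1, h2, h3, h4⟩ | ⟨h1, h2, h3, h4⟩⟩ := SS_cases z <;>
  simp [mu, hx, h2, h3, h4]

lemma sum_sq : xx * xx + yp * yp + ym * ym = 1 := by
  ext z
  obtain ⟨x, y, h, hy, hx, ⟨h1, h2, h3, h4⟩ | ⟨h1, h2, h3, h4⟩⟩ := SS_cases z <;>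
  · have h' : (x : ℂ) ^ 2 + (y : ℂ) ^ 2 = 1 := by exact_mod_cast h
    simp only [ContinuousMap.add_apply, ContinuousMap.mul_apply, ContinuousMap.one_apply, hx, h2, h3]
    linear_combination h'

lemma yp_om : yp * (om - 1) = 0 := by
  ext z
  obtain ⟨x, y, h, hy, hx, ⟨h1, h2, h3, h4⟩ | ⟨h1, h2, h3, h4⟩⟩ := SS_cases z
  · have h' : (x : ℂ) ^ 2 + (y : ℂ) ^ 2 = 1 := by exact_mod_cast h
    simp only [om, zeta, ContinuousMap.add_apply, ContinuousMap.mul_apply, ContinuousMap.one_apply,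
      ContinuousMap.sub_apply, ContinuousMap.smul_apply, ContinuousMap.star_apply,
      ContinuousMap.zero_apply, hx, h1, h2, h3, smul_eq_mul, RCLike.star_def, map_add, map_mul,
      conj_ofReal, conj_I]
    linear_combination (y : ℂ) * h' - (y : ℂ) ^ 3 * I_mul_I
  · simp [h2]

lemma key_identity : (lam - I • 1) * ((lam - I • 1) * (om - 1))
    = (2 : ℂ) • (xx * xx + ym * ym - lam * lam) := by
  ext z
  obtain ⟨x, y, h, hy, hx, ⟨h1, h2, h3, h4⟩ | ⟨h1, h2, h3, h4⟩⟩ := SS_cases z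
  · have h' : (x : ℂ) ^ 2 + (y : ℂ) ^ 2 = 1 := by exact_mod_cast h
    simp only [om, zeta, ContinuousMap.add_apply, ContinuousMap.mul_apply, ContinuousMap.one_apply,
      ContinuousMap.sub_apply, ContinuousMap.smul_apply, ContinuousMap.star_apply,
      hx, h1, h2, h3, h4, smul_eq_mul, RCLike.star_def, map_add, map_mul,
      conj_ofReal, conj_I]
    linear_combination ((x : ℂ) - I) ^ 2 * h' - ((x : ℂ) - I) ^ 2 * (y : ℂ) ^ 2 * I_mul_I
  · have h' : (x : ℂ) ^ 2 + (y : ℂ) ^ 2 = 1 := by exact_mod_cast h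
    have hne : (1 + (y : ℂ)) ≠ 0 := by
      rw [← ofReal_one, ← ofReal_add, ofReal_ne_zero]; positivity
    simp only [om, zeta, ContinuousMap.add_apply, ContinuousMap.mul_apply, ContinuousMap.one_apply,
      ContinuousMap.sub_apply, ContinuousMap.smul_apply, ContinuousMap.star_apply,
      hx, h1, h2, h3, h4, smul_eq_mul, RCLike.star_def, map_sub, map_mul,
      conj_ofReal, conj_I]
    field_simp
    have hx2 : (x : ℂ) ^ 2 = 1 - (y : ℂ) ^ 2 := by linear_combination h'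
    have hI : I ^ 2 = -1 := I_sq
    grind

lemma zz_om : zz * om = zeta := by
  ext z
  have h := norm_SS z
  have h1 : zz z * star (zz z) = 1 := by
    show (z : ℂ) * (starRingEnd ℂ) (z : ℂ) = 1
    rw [mul_conj, normSq_eq_norm_sq, h]; simp
  simp only [om, ContinuousMap.mul_apply, ContinuousMap.star_apply]
  rw [← mul_assoc, h1, one_mul]

lemma eta_identity : (1 / 2 : ℂ) • (1 : C(SS, ℂ)) * (eta * eta)
    = rho * (((1 - I) / 2) • (1 : C(SS, ℂ)) * (((1 - I) / 2) • (1 : C(SS, ℂ)) * zeta)) := by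
  ext z
  obtain ⟨x, y, h, hy, hx, ⟨h1, h2, h3, h4⟩ | ⟨h1, h2, h3, h4⟩⟩ := SS_cases z <;>
  · have h' : (x : ℂ) ^ 2 + (y : ℂ) ^ 2 = 1 := by exact_mod_cast h
    simp only [eta, rho, zeta, ContinuousMap.add_apply, ContinuousMap.mul_apply,
      ContinuousMap.one_apply, ContinuousMap.sub_apply, ContinuousMap.smul_apply,
      hx, h2, h3, smul_eq_mul]
    have hI : I ^ 2 = -1 := I_sq
    grind

lemma norm_const_lt {c : ℂ} (hc : ‖1 - c‖ < 1) : ‖1 - c • (1 : C(SS, ℂ))‖ < 1 := by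
  refine (ContinuousMap.norm_lt_iff _ one_pos).2 fun z => ?_
  simpa using hc

lemma norm_rho : ‖1 - rho‖ < 1 := by
  refine (ContinuousMap.norm_lt_iff _ one_pos).2 fun z => ?_
  obtain ⟨x, y, h, hy, hx, ⟨h1, h2, h3, h4⟩ | ⟨h1, h2, h3, h4⟩⟩ := SS_cases z <;>
  · have e : (1 - rho) z = (((1 - y) / 2 : ℝ) : ℂ) := by
      simp only [rho, ContinuousMap.add_apply, ContinuousMap.one_apply, ContinuousMap.sub_apply,
        ContinuousMap.smul_apply, h2, h3, smul_eq_mul]
      push_cast; ring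
    rw [e, norm_real, Real.norm_eq_abs, abs_lt]
    constructor <;> nlinarith [sq_nonneg x]

lemma norm_eta : ‖1 - eta‖ < 1 := by
  refine (ContinuousMap.norm_lt_iff _ one_pos).2 fun z => ?_
  obtain ⟨x, y, h, hy, hx, ⟨h1, h2, h3, h4⟩ | ⟨h1, h2, h3, h4⟩⟩ := SS_cases z <;>
  · have e : (1 - eta) z = (((1 - y) / 2 : ℝ) : ℂ) + ((x / 2 : ℝ) : ℂ) * I := by
      simp only [eta, ContinuousMap.add_apply, ContinuousMap.one_apply, ContinuousMap.sub_apply,
        ContinuousMap.smul_apply, hx, h2, h3, smul_eq_mul]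
      push_cast; ring
    rw [e, ← sq_lt_one_iff₀ (norm_nonneg _), Complex.sq_norm, normSq_add_mul_I]
    nlinarith

end Pool.Agent.H250Z.WvN
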