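import Pool.Agent.H250Z.WvN.Toep
import Pool.Agent.H250Z.WvN.Cay

/-! Level operators on `ℓ²(ℕ, ℓ²(ℤ))` and the spectral-flow operator. -/

set_option autoImplicit false

open Filter Topology

namespace Pool.Agent.H250Z.WvN

lemma sq_D {R C : Type*} [Ring R] [CommRing C] (ψ : C →+* R) (s p m e : R)
    (hs : ∀ f, ψ f * s = s * ψ f) (hp : ∀ f, ψ f * p = p * ψ f) (hm : ∀ f, ψ f * m = m * ψ f)
    (he : ∀ f, ψ f * e = e * ψ f) (hss : s * s = 1) (hpp : p * p = 1) (hmm : m * m = 1)
    (hps : p * s = -(s * p)) (hms : m * s = e + e - s * m) (hme : m * e = e) (hem : e * m = e)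
    (hse : s * e = e) (hes : e * s = e) (hee : e * e = e)
    (x a b μ : C) (hab : a * b = 0) (haμ : a * μ = 0) (h1 : x * x + a * a + b * b = 1) :
    (s * ψ x + p * ψ a + m * ψ b + e * ψ μ) * (s * ψ x + p * ψ a + m * ψ b + e * ψ μ)
      = 1 + e * ψ ((x + b + μ) * (x + b + μ) - x * x - b * b) := by
  have hc : ∀ (L1 L2 : R) (f g : C), (∀ f, ψ f * L2 = L2 * ψ f) →
      L1 * ψ f * (L2 * ψ g) = L1 * L2 * ψ (f * g) := by
    intro L1 L2 f g h
    rw [map_mul, mul_assoc, ← mul_assoc (ψ f), h f]; noncomm_ring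
  have e1 : (x + b + μ) * (x + b + μ) - x * x - b * b
      = x * b + x * b + x * μ + x * μ + b * μ + b * μ + μ * μ := by ring
  have e2 : (1 : R) = ψ (x * x) + ψ (a * a) + ψ (b * b) := by
    rw [← map_add, ← map_add, h1, map_one]
  rw [e1]
  simp only [add_mul, mul_add, hc _ _ _ _ hs, hc _ _ _ _ hp, hc _ _ _ _ hm, hc _ _ _ _ he]
  rw [mul_comm a x, mul_comm b x, mul_comm μ x, mul_comm b a, mul_comm μ a, mul_comm μ b]
  simp only [hss, hpp, hmm, hps, hms, hme, hem, hse, hes, hee, hab, haμ, map_zero, mul_zero,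
    one_mul, map_add, mul_add, add_mul, sub_mul, neg_mul]
  rw [e2]
  abel

/-- `ℓ²(ℕ, ℓ²(ℤ))` -/
abbrev BH : Type := L2 ℕ HH

/-- level cut-offs -/
noncomputable def PP (n : ℕ) : BH →L[ℂ] BH := proj HH (fun k : ℕ => k < n)

lemma PP_apply (n : ℕ) (v : BH) (k : ℕ) : (PP n v) k = if k < n then v k else 0 :=
  proj_apply _ _ _

lemma star_PP (n : ℕ) : star (PP n) = PP n := star_proj _

lemma one_sub_PP (n : ℕ) : 1 - PP n = proj HH (fun k : ℕ => ¬ k < n) :=
  L2.op_ext fun v k => by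
    simp only [ContinuousLinearMap.sub_apply, ContinuousLinearMap.one_apply, lp.coeFn_sub,
      Pi.sub_apply, PP_apply, proj_apply]
    split_ifs <;> simp

lemma PP_mul {m n : ℕ} (h : m ≤ n) : PP n * PP m = PP m := L2.op_ext fun v k => by
  simp only [L2.mul_apply, PP_apply]; split_ifs <;> first | omega | rfl

lemma PP_mul' {m n : ℕ} (h : m ≤ n) : PP m * PP n = PP m := L2.op_ext fun v k => by
  simp only [L2.mul_apply, PP_apply]; split_ifs <;> first | omega | rfl

lemma pfam : PFam PP where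
  mul := fun _ _ h => PP_mul h
  norm_le := fun _ => norm_proj_le _
  norm_one_sub_le := fun n => by rw [one_sub_PP]; exact norm_proj_le _

/-- sign of the level -/
noncomputable def Sg : BH →L[ℂ] BH :=
  scal HH (fun k : ℕ => if k % 2 = 0 then 1 else -1) (fun k => by split_ifs <;> simp)

lemma Sg_apply (v : BH) (k : ℕ) : (Sg v) k = if k % 2 = 0 then v k else -v k := by
  simp only [Sg, scal_apply]; split_ifs <;> simp

lemma star_Sg : star Sg = Sg := star_scal _ _ fun k => by split_ifs <;> simp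

/-- swap `2k ↔ 2k+1` -/
def fp (k : ℕ) : ℕ := if k % 2 = 0 then k + 1 else k - 1

/-- swap `2k+1 ↔ 2k+2` -/
def fm (k : ℕ) : ℕ := if k % 2 = 0 then k - 1 else k + 1

lemma fp_inv : Function.Involutive fp := fun k => by
  simp only [fp]; split_ifs <;> omega

lemma fm_inv : Function.Involutive fm := fun k => by
  simp only [fm]; split_ifs <;> omega

/-- swap operator -/
noncomputable def Vp : BH →L[ℂ] BH := perm HH fp_inv.toPerm

/-- swap operator -/
noncomputable def Vm : BH →L[ℂ] BH := perm HH fm_inv.toPerm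

lemma Vp_apply (v : BH) (k : ℕ) : (Vp v) k = v (fp k) := rfl
lemma Vm_apply (v : BH) (k : ℕ) : (Vm v) k = v (fm k) := rfl

lemma star_Vp : star Vp = Vp := by rw [Vp, star_perm]; rfl
lemma star_Vm : star Vm = Vm := by rw [Vm, star_perm]; rfl

lemma Sg_Sg : Sg * Sg = 1 := L2.op_ext fun v k => by
  simp only [L2.mul_apply, Sg_apply, ContinuousLinearMap.one_apply]; split_ifs <;> simp

lemma Vp_Vp : Vp * Vp = 1 := L2.op_ext fun v k => by
  simp only [L2.mul_apply, Vp_apply, ContinuousLinearMap.one_apply, fp_inv k]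

lemma Vm_Vm : Vm * Vm = 1 := L2.op_ext fun v k => by
  simp only [L2.mul_apply, Vm_apply, ContinuousLinearMap.one_apply, fm_inv k]

lemma Vp_Sg : Vp * Sg = -(Sg * Vp) := L2.op_ext fun v k => by
  simp only [L2.mul_apply, Vp_apply, Sg_apply, ContinuousLinearMap.neg_apply, lp.coeFn_neg,
    Pi.neg_apply]
  have : fp k % 2 = 0 ↔ ¬ k % 2 = 0 := by simp only [fp]; split_ifs <;> omega
  by_cases h : k % 2 = 0 <;> simp [h, this]

lemma Vm_Sg : Vm * Sg = PP 1 + PP 1 - Sg * Vm := L2.op_ext fun v k => by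
  simp only [L2.mul_apply, Vm_apply, Sg_apply, PP_apply, ContinuousLinearMap.sub_apply,
    ContinuousLinearMap.add_apply, lp.coeFn_sub, lp.coeFn_add, Pi.sub_apply, Pi.add_apply]
  by_cases h0 : k = 0
  · subst h0; simp [fm]
  · have : fm k % 2 = 0 ↔ ¬ k % 2 = 0 := by simp only [fm]; split_ifs <;> omega
    have h1 : ¬ k < 1 := by omega
    by_cases h : k % 2 = 0 <;> simp [h, this, h1]

lemma Vm_E : Vm * PP 1 = PP 1 := L2.op_ext fun v k => by
  simp only [L2.mul_apply, Vm_apply, PP_apply]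
  by_cases h0 : k = 0
  · subst h0; simp [fm]
  · have : ¬ fm k < 1 := by simp only [fm]; split_ifs <;> omega
    have h1 : ¬ k < 1 := by omega
    simp only [this, h1, if_false]

lemma E_Vm : PP 1 * Vm = PP 1 := L2.op_ext fun v k => by
  simp only [L2.mul_apply, Vm_apply, PP_apply]
  by_cases h0 : k = 0
  · subst h0; simp [fm]
  · have h1 : ¬ k < 1 := by omega
    simp only [h1, if_false]

lemma Sg_E : Sg * PP 1 = PP 1 := L2.op_ext fun v k => by
  simp only [L2.mul_apply, Sg_apply, PP_apply]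
  by_cases h0 : k = 0
  · subst h0; simp
  · have h1 : ¬ k < 1 := by omega
    simp [h1]

lemma E_Sg : PP 1 * Sg = PP 1 := L2.op_ext fun v k => by
  simp only [L2.mul_apply, Sg_apply, PP_apply]
  by_cases h0 : k = 0
  · subst h0; simp
  · have h1 : ¬ k < 1 := by omega
    simp [h1]

lemma M1_perm (σ : Equiv.Perm ℕ) (h : ∀ k, k ≤ σ k + 1) : M1 PP (perm HH σ) := by
  refine M1.of_eventually_zero fun m => ?_
  filter_upwards [eventually_ge_atTop (m + 1)] with N hN
  rw [one_sub_PP]
  refine L2.op_ext fun v k => ?_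
  have := h k
  simp only [L2.mul_apply, proj_apply, perm_apply, PP_apply, ContinuousLinearMap.zero_apply,
    lp.coeFn_zero, Pi.zero_apply]
  split_ifs <;> first | omega | rfl

lemma M1_Vp : M1 PP Vp := M1_perm _ fun k => by
  show k ≤ fp k + 1
  simp only [fp]; split_ifs <;> omega

lemma M1_Vm : M1 PP Vm := M1_perm _ fun k => by
  show k ≤ fm k + 1
  simp only [fm]; split_ifs <;> omega

lemma M1_of_comm {a : BH →L[ℂ] BH} (h : ∀ m, a * PP m = PP m * a) : M1 PP a := by
  refine M1.of_eventually_zero fun m => ?_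
  filter_upwards [eventually_ge_atTop m] with N hN
  rw [mul_assoc, h, ← mul_assoc, sub_mul, one_mul, PP_mul hN, sub_self, zero_mul]

lemma M1_amp (a : HH →L[ℂ] HH) : M1 PP (ampHom ℕ HH a) := M1_of_comm fun _ => proj_comm _ a

lemma M1_Sg : M1 PP Sg := M1_of_comm fun m => L2.op_ext fun v k => by
  simp only [L2.mul_apply, Sg_apply, PP_apply]; split_ifs <;> simp

lemma M1_E : M1 PP (PP 1) := M1_of_comm fun m => L2.op_ext fun v k => by
  simp only [L2.mul_apply, PP_apply]; split_ifs <;> simp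

end Pool.Agent.H250Z.WvN
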