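import Pool.Agent.H250Z.WvN.Lev
import Pool.Agent.H250Z.WvN.Fun

/-! The self-adjoint multiplier with non-trivial index. -/

set_option autoImplicit false

open Filter Topology Complex

namespace Pool.Agent.H250Z.WvN

/-- amplified functional calculus -/
noncomputable def Ps : C(SS, ℂ) →⋆ₐ[ℂ] (BH →L[ℂ] BH) := (ampHom ℕ HH).comp Phi

lemma Ps_def (f : C(SS, ℂ)) : Ps f = ampHom ℕ HH (Phi f) := rfl

/-- amplified Hardy projection -/
noncomputable def qt : BH →L[ℂ] BH := ampHom ℕ HH qq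

lemma qt_qt : qt * qt = qt := by rw [qt, ← map_mul, qq_mul_qq]
lemma star_qt : star qt = qt := by rw [qt, ← map_star, star_qq]

/-- commutes with all amplified operators -/
def Lv (L : BH →L[ℂ] BH) : Prop := ∀ a, ampHom ℕ HH a * L = L * ampHom ℕ HH a

lemma Lv_Sg : Lv Sg := fun a => scal_comm _ _ a
lemma Lv_Vp : Lv Vp := fun a => perm_comm _ a
lemma Lv_Vm : Lv Vm := fun a => perm_comm _ a
lemma Lv_PP (n : ℕ) : Lv (PP n) := fun a => proj_comm _ a

/-- the spectral-flow loop -/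
noncomputable def DD : BH →L[ℂ] BH := Sg * Ps xx + Vp * Ps yp + Vm * Ps ym + PP 1 * Ps mu

/-- `β` -/
noncomputable def beta : C(SS, ℂ) := xx * xx + ym * ym - lam * lam

lemma one_sub_DD : 1 - DD * DD = PP 1 * Ps beta := by
  have h := sq_D (Ps : C(SS, ℂ) →+* (BH →L[ℂ] BH)) Sg Vp Vm (PP 1) (fun f => Lv_Sg _)
    (fun f => Lv_Vp _) (fun f => Lv_Vm _) (fun f => Lv_PP 1 _) Sg_Sg Vp_Vp Vm_Vm Vp_Sg Vm_Sg Vm_E
    E_Vm Sg_E E_Sg (PP_mul le_rfl) xx yp ym mu yp_ym yp_mu sum_sq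
  have e : (xx + ym + mu) * (xx + ym + mu) - xx * xx - ym * ym = -beta := by
    rw [mu, beta]; ring
  rw [e] at h
  have h' : DD * DD = 1 + PP 1 * Ps (-beta) := h
  rw [h', map_neg]; noncomm_ring

lemma star_L_Ps {L : BH →L[ℂ] BH} (hL : Lv L) (hs : star L = L) {f : C(SS, ℂ)} (hf : star f = f) :
    star (L * Ps f) = L * Ps f := by
  rw [star_mul, ← map_star, hf, hs]; exact hL _

lemma star_DD : star DD = DD := by
  rw [DD, star_add, star_add, star_add, star_L_Ps Lv_Sg star_Sg star_xx,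
    star_L_Ps Lv_Vp star_Vp star_yp, star_L_Ps Lv_Vm star_Vm star_ym,
    star_L_Ps (Lv_PP 1) (star_PP 1) star_mu]

lemma M1_DD : M1 PP DD :=
  (((M1_Sg.mul pfam (M1_amp _)).add (M1_Vp.mul pfam (M1_amp _))).add
    (M1_Vm.mul pfam (M1_amp _))).add (M1_E.mul pfam (M1_amp _))

lemma cpt_corner (n : ℕ) (f : C(SS, ℂ)) : Cpt (PP n * ((1 - qt) * Ps f * qt)) := by
  have := cpt_proj_lt_amp n (cpt_Phi f)
  rw [map_mul, map_mul, map_sub, map_one] at this
  exact this

lemma cpt_corner' {L : BH →L[ℂ] BH} (hL : Lv L) (n : ℕ) (f : C(SS, ℂ)) :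
    Cpt ((1 - qt) * (L * Ps f) * qt * PP n) := by
  refine ((cpt_corner n f).mul_left L).of_eq ?_
  have h1 : (1 - qt) * L = L * (1 - qt) := by
    rw [sub_mul, mul_sub, one_mul, mul_one, qt, hL]
  have h2 : (1 - qt) * Ps f * qt * PP n = PP n * ((1 - qt) * Ps f * qt) := by
    have := Lv_PP n ((1 - qq) * Phi f * qq)
    rw [map_mul, map_mul, map_sub, map_one] at this
    exact this
  rw [← h2, ← mul_assoc (1 - qt), h1]; noncomm_ring

lemma cpt_DD (n : ℕ) : Cpt ((1 - qt) * DD * qt * PP n) := by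
  refine ((((cpt_corner' Lv_Sg n xx).add (cpt_corner' Lv_Vp n yp)).add
    (cpt_corner' Lv_Vm n ym)).add (cpt_corner' (Lv_PP 1) n mu)).of_eq ?_
  rw [DD]; noncomm_ring

/-- the self-adjoint multiplier -/
noncomputable def TT : BH →L[ℂ] BH := qt * DD * qt - (1 - qt)

lemma TT_sa : IsSelfAdjoint TT := by
  rw [IsSelfAdjoint, TT, star_sub, star_sub, star_one, star_mul, star_mul, star_qt, star_DD,
    mul_assoc]

lemma M1_TT : M1 PP TT :=
  (((M1_amp _).mul pfam M1_DD).mul pfam (M1_amp _)).sub ((M1.one pfam).sub (M1_amp _))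

/-- Toeplitz operators at level zero -/
noncomputable def WW (f : C(SS, ℂ)) : BH →L[ℂ] BH := PP 1 * (qt * Ps f * qt)

lemma qt_E : qt * PP 1 = PP 1 * qt := Lv_PP 1 _
lemma Ps_E (f : C(SS, ℂ)) : Ps f * PP 1 = PP 1 * Ps f := Lv_PP 1 _

lemma WW_eq (f : C(SS, ℂ)) : WW f = qt * Ps f * qt * PP 1 := by
  rw [WW, mul_assoc _ qt (PP 1), qt_E, ← mul_assoc _ (PP 1), mul_assoc qt (Ps f) (PP 1), Ps_E,
    ← mul_assoc qt (PP 1), qt_E]; noncomm_ring

lemma WW_PP {n : ℕ} (hn : 1 ≤ n) (f : C(SS, ℂ)) : WW f * PP n = WW f := by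
  rw [WW_eq, mul_assoc _ (PP 1), PP_mul' hn]

lemma PP_WW {n : ℕ} (hn : 1 ≤ n) (f : C(SS, ℂ)) : PP n * WW f = WW f := by
  rw [WW, ← mul_assoc, PP_mul hn]

lemma WW_add (f g : C(SS, ℂ)) : WW (f + g) = WW f + WW g := by
  simp only [WW, map_add]; noncomm_ring

lemma WW_sub (f g : C(SS, ℂ)) : WW (f - g) = WW f - WW g := by
  simp only [WW, map_sub]; noncomm_ring

lemma WW_smul (c : ℂ) (f : C(SS, ℂ)) : WW (c • f) = c • WW f := by
  simp only [WW, map_smul, mul_smul_comm, smul_mul_assoc]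

lemma norm_WW (f : C(SS, ℂ)) : ‖WW f‖ ≤ ‖f‖ := by
  have h1 : ‖qt‖ ≤ 1 := (norm_ampHom_le _).trans norm_qq
  have h2 : ‖Ps f‖ ≤ ‖f‖ := (norm_ampHom_le _).trans (norm_Phi f).le
  have := norm_mul2 _ _ (pfam.norm_le 1) (norm_mul3 _ _ _ h1 h2 h1)
  simpa [WW] using this

lemma one_sub_TT : 1 - TT * TT = WW beta + qt * DD * ((1 - qt) * DD * qt) := by
  have hq : ∀ z, qt * (qt * z) = qt * z := fun z => by rw [← mul_assoc, qt_qt]
  have h1 : WW beta = qt * (1 - DD * DD) * qt := by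
    rw [one_sub_DD, WW, ← mul_assoc qt (PP 1), qt_E]; noncomm_ring
  rw [h1, TT]
  simp only [mul_sub, sub_mul, mul_one, one_mul, mul_assoc, hq, qt_qt]
  abel

lemma cpt_TT {n : ℕ} (hn : 1 ≤ n) : Cpt ((1 - TT * TT) * PP n - WW beta) := by
  refine ((cpt_DD n).mul_left (qt * DD)).of_eq ?_
  rw [one_sub_TT, add_mul, WW_PP hn]; noncomm_ring

lemma I1_TT : I1 PP (1 - TT * TT) := by
  intro ε hε
  filter_upwards [eventually_ge_atTop 1] with n hn m
  refine ⟨(1 - PP n) * (1 - TT * TT) * PP m, ?_, by simpa using hε.le⟩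
  refine (((cpt_DD m).mul_left (qt * DD)).mul_left (1 - PP n)).of_eq ?_
  rw [one_sub_TT, mul_add, sub_mul 1 (PP n) (WW beta), PP_WW hn]; noncomm_ring

lemma DD_E {f : C(SS, ℂ)} (hf : yp * f = 0) : DD * PP 1 * Ps f = PP 1 * Ps (lam * f) := by
  have hc : ∀ (L : BH →L[ℂ] BH) (g : C(SS, ℂ)), L * Ps g * PP 1 * Ps f = L * PP 1 * Ps (g * f) := by
    intro L g
    rw [map_mul, mul_assoc L (Ps g), Ps_E]; noncomm_ring
  have e : lam * f = xx * f + ym * f + mu * f := by rw [mu]; ring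
  rw [DD, e]
  simp only [add_mul, hc, hf, map_zero, mul_zero, Sg_E, Vm_E, PP_mul le_rfl, map_add, mul_add,
    add_zero]

lemma TT_WW {f : C(SS, ℂ)} (hf : yp * f = 0) : Cpt (TT * WW f - WW (lam * f)) := by
  refine (((cpt_corner 1 f).mul_left (qt * DD)).neg).of_eq ?_
  have hq : ∀ z, qt * (qt * z) = qt * z := fun z => by rw [← mul_assoc, qt_qt]
  have hq' : ∀ z, PP 1 * (qt * z) = qt * (PP 1 * z) := fun z => by
    rw [← mul_assoc, ← qt_E, mul_assoc]
  have h1 : WW (lam * f) = qt * (DD * PP 1 * Ps f) * qt := by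
    rw [DD_E hf, WW, ← mul_assoc qt (PP 1), qt_E]; noncomm_ring
  have h2 : TT * WW f = qt * DD * (PP 1 * (qt * Ps f * qt)) := by
    rw [TT, WW]
    simp only [mul_sub, sub_mul, one_mul, mul_assoc, hq', hq]
    abel
  rw [h1, h2]; noncomm_ring

lemma TTi_WW {f : C(SS, ℂ)} (hf : yp * f = 0) :
    Cpt ((TT - I • 1) * WW f - WW ((lam - I • 1) * f)) := by
  refine (TT_WW hf).of_eq ?_
  rw [sub_mul, sub_mul, smul_mul_assoc, smul_mul_assoc, one_mul, one_mul, WW_sub, WW_smul]; abel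

lemma cpt_res : Cpt ((2 : ℂ) • (res TT * res TT * WW beta) - WW (om - 1)) := by
  have h1 := TTi_WW yp_om
  have h2 := TTi_WW (f := (lam - I • 1) * (om - 1)) (by
    rw [mul_left_comm, yp_om, mul_zero])
  rw [key_identity, WW_smul] at h2
  have h3 := ((h1.mul_left (res TT)).add (h2.mul_left (res TT * res TT))).neg
  refine h3.of_eq ?_
  have hr : ∀ z, res TT * ((TT - I • 1) * z) = z := fun z => by
    rw [← mul_assoc, res_mul TT_sa, one_mul]
  rw [mul_sub (res TT), mul_sub (res TT * res TT), hr, mul_assoc (res TT) (res TT) (_ * _), hr,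
    mul_smul_comm, beta]
  abel

/-- Toeplitz unitisation -/
noncomputable def tau (f : C(SS, ℂ)) : BH →L[ℂ] BH := 1 + WW (f - 1)

lemma cn_uu {n : ℕ} (hn : 1 ≤ n) : Cpt (tau om - cn PP n (uu TT)) := by
  have h1 := ((cpt_TT hn).mul_left (res TT * res TT)).smul 2
  have h2 := ((h1.add cpt_res).mul_left (PP n)).neg
  refine h2.of_eq ?_
  rw [cn, uu_eq TT_sa, tau]
  conv_lhs => rw [← PP_WW hn (om - 1)]
  simp only [mul_add, add_mul, mul_sub (res TT * res TT) _ (WW beta), smul_sub, mul_one,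
    PP_mul le_rfl, mul_smul_comm, smul_mul_assoc, mul_sub (PP n), mul_assoc]
  abel

lemma WW_mul (f g : C(SS, ℂ)) : Cpt (WW f * WW g - WW (f * g)) := by
  refine (((cpt_corner 1 g).mul_left (qt * Ps f)).neg).of_eq ?_
  have hq : ∀ z, qt * (qt * z) = qt * z := fun z => by rw [← mul_assoc, qt_qt]
  have hq' : ∀ z, qt * (PP 1 * z) = PP 1 * (qt * z) := fun z => by
    rw [← mul_assoc, qt_E, mul_assoc]
  have hp' : ∀ z, Ps f * (PP 1 * z) = PP 1 * (Ps f * z) := fun z => by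
    rw [← mul_assoc, Ps_E, mul_assoc]
  have hpp : ∀ z, PP 1 * (PP 1 * z) = PP 1 * z := fun z => by rw [← mul_assoc, PP_mul le_rfl]
  simp only [WW, map_mul, mul_sub, sub_mul, one_mul, mul_assoc, hq, hq', hp', hpp]
  abel

lemma tau_mul (f g : C(SS, ℂ)) : Cpt (tau f * tau g - tau (f * g)) := by
  refine (WW_mul (f - 1) (g - 1)).of_eq ?_
  have e : f * g - 1 = (f - 1) + (g - 1) + (f - 1) * (g - 1) := by ring
  rw [tau, tau, tau, e, WW_add, WW_add]; noncomm_ring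

lemma tau_ind_of_norm {f : C(SS, ℂ)} (hf : ‖1 - f‖ < 1) : Ind0 (tau f) := by
  refine Ind0.of_norm_lt (d := WW (1 - f)) ((norm_WW _).trans_lt hf) (Cpt.zero.of_eq ?_)
  rw [tau, WW_sub, WW_sub]; abel

lemma tau_ind_mul {f g : C(SS, ℂ)} (hf : Ind0 (tau f)) (hg : Ind0 (tau g)) :
    Ind0 (tau (f * g)) :=
  (hf.mul hg).congr ((tau_mul f g).neg.of_eq (by abel))

lemma tau_ind_left {f g : C(SS, ℂ)} (hfg : Ind0 (tau (f * g))) (hf : Ind0 (tau f)) :
    Ind0 (tau g) :=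
  (hfg.congr (tau_mul f g)).of_mul_left hf

lemma tau_ind_right {f g : C(SS, ℂ)} (hfg : Ind0 (tau (f * g))) (hg : Ind0 (tau g)) :
    Ind0 (tau f) :=
  (hfg.congr (tau_mul f g)).of_mul_right hg

lemma tau_zeta : Ind0 (tau zeta) := by
  have h1 : Ind0 (tau ((1 / 2 : ℂ) • (1 : C(SS, ℂ)))) :=
    tau_ind_of_norm (norm_const_lt (by norm_num))
  have h2 : Ind0 (tau (((1 - I) / 2) • (1 : C(SS, ℂ)))) := by
    refine tau_ind_of_norm (norm_const_lt ?_)
    have e : (1 - (1 - I) / 2 : ℂ) = ((1 / 2 : ℝ) : ℂ) + ((1 / 2 : ℝ) : ℂ) * I := by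
      push_cast; ring
    rw [e, ← sq_lt_one_iff₀ (norm_nonneg _), Complex.sq_norm, normSq_add_mul_I]
    norm_num
  have h3 := tau_ind_of_norm norm_eta
  have h4 := tau_ind_mul h1 (tau_ind_mul h3 h3)
  rw [eta_identity] at h4
  exact tau_ind_left (tau_ind_left (tau_ind_left h4 (tau_ind_of_norm norm_rho)) h2) h2

lemma not_tau_zz : ¬ Ind0 (tau zz) := by
  have e1 : ∀ f, WW (f - 1) = PP 1 * ampHom ℕ HH (qq * Phi f * qq - qq) := fun f => by
    rw [WW, map_sub Ps, map_one, map_sub, map_mul, map_mul, mul_sub qt, sub_mul, mul_one, qt_qt]; rfl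
  have hl : tau (star zz) * tau zz = 1 := by
    rw [tau, tau, e1, e1, map_star, Phi_zz]
    set a := qq * star UU * qq - qq
    set b := qq * UU * qq - qq
    have hab : a + b + a * b = 0 := by
      have h1 : qq * star UU * qq * (qq * UU * qq) = qq := by
        rw [mul_assoc _ qq, ← mul_assoc qq (qq * UU), ← mul_assoc qq qq, qq_mul_qq, qUq, mul_assoc,
          ← mul_assoc (star UU), star_UU_mul, one_mul, qq_mul_qq]
      have h2 : qq * star UU * qq * qq = qq * star UU * qq := by rw [mul_assoc _ qq, qq_mul_qq]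
      have h3 : qq * (qq * UU * qq) = qq * UU * qq := by
        rw [← mul_assoc, ← mul_assoc, qq_mul_qq]
      simp only [a, b, mul_sub, sub_mul, h1, h2, h3, qq_mul_qq]; abel
    have h4 : PP 1 * ampHom ℕ HH a * (PP 1 * ampHom ℕ HH b) = PP 1 * ampHom ℕ HH (a * b) := by
      rw [mul_assoc, ← mul_assoc _ (PP 1), Lv_PP 1 a, map_mul, ← mul_assoc, ← mul_assoc,
        PP_mul le_rfl, mul_assoc]
    have h5 : PP 1 * ampHom ℕ HH a + PP 1 * ampHom ℕ HH b + PP 1 * ampHom ℕ HH (a * b) = 0 := by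
      rw [← mul_add, ← mul_add, ← map_add, ← map_add, hab, map_zero, mul_zero]
    rw [add_mul, one_mul, mul_add, mul_one, h4]
    calc _ = 1 + (PP 1 * ampHom ℕ HH a + PP 1 * ampHom ℕ HH b + PP 1 * ampHom ℕ HH (a * b)) := by
          abel
      _ = 1 := by rw [h5, add_zero]
  let d : HH := lp.single 2 (0 : ℤ) (1 : ℂ)
  have hd : d ≠ 0 := by
    intro h
    have := congrArg (fun w : HH => w 0) h
    simp [d] at this
  let v : BH := lp.single 2 (0 : ℕ) d
  have hv : v ≠ 0 := by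
    intro h
    have := congrArg (fun w : BH => w 0) h
    simp only [v, lp.single_apply_self, lp.coeFn_zero, Pi.zero_apply] at this
    exact hd this
  refine Ind0.not_of_left_inv hl hv ?_
  rw [tau, e1, map_star, Phi_zz]
  refine lp.ext (funext fun k => ?_)
  simp only [ContinuousLinearMap.add_apply, ContinuousLinearMap.one_apply, lp.coeFn_add,
    Pi.add_apply, L2.mul_apply, PP_apply, ampHom_apply, lp.coeFn_zero, Pi.zero_apply]
  by_cases hk : k = 0
  · subst hk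
    simp only [v, lp.single_apply_self, Nat.lt_one_iff, if_true]
    refine lp.ext (funext fun j => ?_)
    simp only [ContinuousLinearMap.sub_apply, L2.mul_apply, lp.coeFn_add, lp.coeFn_sub,
      Pi.add_apply, Pi.sub_apply, qq_apply, star_UU_apply, lp.coeFn_zero, Pi.zero_apply, d,
      lp.single_apply, Pi.single_apply]
    split_ifs <;> first | omega | simp
  · have h1 : ¬ k < 1 := by omega
    simp [h1, v, lp.single_apply, Pi.single_eq_of_ne hk]

theorem not_Pp : ¬ Pp PP (uu TT) := by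
  intro h
  obtain ⟨n, h1, hn⟩ := (h.and (eventually_ge_atTop 1)).exists
  have h2 : Ind0 (tau om) := h1.congr (cn_uu hn)
  have h3 : Ind0 (tau (zz * om)) := by rw [zz_om]; exact tau_zeta
  exact not_tau_zz (tau_ind_right h3 h2)

theorem main : ∃ δ > 0, ∀ S : BH →L[ℂ] BH, IsSelfAdjoint S → M1 PP S → (spectrum ℂ S).Finite →
    ¬ ‖TT - S‖ < δ :=
  obstruction pfam TT_sa M1_TT I1_TT not_Pp

end Pool.Agent.H250Z.WvN
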