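import Pool.Agent.H250Z.WvN.Fred

/-! Diagonal and permutation operators on `ℓ²(ι, E)`. -/

set_option autoImplicit false

open Filter Topology

namespace Pool.Agent.H250Z.WvN

/-- `ℓ²(ι, E)` -/
abbrev L2 (ι : Type) (E : Type) [NormedAddCommGroup E] : Type := lp (fun _ : ι => E) 2

variable {ι : Type} {E : Type} [NormedAddCommGroup E] [InnerProductSpace ℂ E] [CompleteSpace E]

omit [InnerProductSpace ℂ E] [CompleteSpace E] in
lemma L2.hasSum_sq (v : L2 ι E) : HasSum (fun i => ‖v i‖ ^ 2) (‖v‖ ^ 2) := by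
  have := lp.hasSum_norm (p := 2) (by norm_num) v
  simpa using this

omit [CompleteSpace E] in
lemma L2.op_ext {a b : L2 ι E →L[ℂ] L2 ι E} (h : ∀ v k, (a v) k = (b v) k) : a = b := by
  refine ContinuousLinearMap.ext fun v => lp.ext (funext fun k => h v k)

/-- amplification -/
noncomputable def amp (ι : Type) (a : E →L[ℂ] E) : L2 ι E →L[ℂ] L2 ι E :=
  lp.mapCLM 2 (fun _ => a) (norm_nonneg a) (fun _ => le_rfl)

omit [CompleteSpace E] in
@[simp] lemma amp_apply (a : E →L[ℂ] E) (v : L2 ι E) (k : ι) : (amp ι a v) k = a (v k) := rfl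

omit [CompleteSpace E] in
lemma norm_amp_le (a : E →L[ℂ] E) : ‖amp ι a‖ ≤ ‖a‖ := lp.norm_mapCLM_le _ _ _ _

/-- scalar diagonal operator -/
noncomputable def scal (E : Type) [NormedAddCommGroup E] [InnerProductSpace ℂ E]
    (c : ι → ℂ) (hc : ∀ k, ‖c k‖ ≤ 1) : L2 ι E →L[ℂ] L2 ι E :=
  lp.mapCLM 2 (fun k => c k • (1 : E →L[ℂ] E)) zero_le_one (fun k => by
    rw [norm_smul]
    calc ‖c k‖ * ‖(1 : E →L[ℂ] E)‖ ≤ 1 * 1 := by
          gcongr
          · exact hc k
          · exact ContinuousLinearMap.norm_id_le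
      _ = 1 := by ring)

omit [CompleteSpace E] in
@[simp] lemma scal_apply (c : ι → ℂ) (hc : ∀ k, ‖c k‖ ≤ 1) (v : L2 ι E) (k : ι) :
    (scal E c hc v) k = c k • v k := rfl

omit [CompleteSpace E] in
lemma norm_scal_le (c : ι → ℂ) (hc : ∀ k, ‖c k‖ ≤ 1) : ‖scal E c hc‖ ≤ 1 :=
  lp.norm_mapCLM_le _ _ _ _

/-- coordinate projection -/
noncomputable def proj (E : Type) [NormedAddCommGroup E] [InnerProductSpace ℂ E]
    (p : ι → Prop) [DecidablePred p] : L2 ι E →L[ℂ] L2 ι E :=
  scal E (fun k => if p k then 1 else 0) (fun k => by split_ifs <;> simp)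

omit [CompleteSpace E] in
@[simp] lemma proj_apply (p : ι → Prop) [DecidablePred p] (v : L2 ι E) (k : ι) :
    (proj E p v) k = if p k then v k else 0 := by
  simp only [proj, scal_apply]; split_ifs <;> simp

omit [CompleteSpace E] in
lemma norm_proj_le (p : ι → Prop) [DecidablePred p] : ‖proj E p‖ ≤ 1 := norm_scal_le _ _

omit [InnerProductSpace ℂ E] [CompleteSpace E] in
lemma memℓp_perm (σ : Equiv.Perm ι) (v : L2 ι E) : Memℓp (fun k => v (σ k)) 2 := by
  apply memℓp_gen
  exact (σ.summable_iff (f := fun i => ‖v i‖ ^ (2 : ENNReal).toReal)).2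
    ((lp.memℓp v).summable (by norm_num))

/-- permutation operator -/
noncomputable def perm (E : Type) [NormedAddCommGroup E] [InnerProductSpace ℂ E]
    (σ : Equiv.Perm ι) : L2 ι E →L[ℂ] L2 ι E :=
  LinearMap.mkContinuous
    { toFun v := ⟨fun k => v (σ k), memℓp_perm σ v⟩
      map_add' _ _ := by ext; simp
      map_smul' _ _ := by ext; simp }
    1
    fun v => by
      rw [one_mul]
      apply le_of_eq
      have h1 := L2.hasSum_sq (⟨fun k => v (σ k), memℓp_perm σ v⟩ : L2 ι E)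
      have h2 := (σ.hasSum_iff (f := fun i => ‖v i‖ ^ 2)).2 (L2.hasSum_sq v)
      have h3 := h1.unique h2
      exact (pow_left_inj₀ (norm_nonneg _) (norm_nonneg _) two_ne_zero).1 h3

omit [CompleteSpace E] in
@[simp] lemma perm_apply (σ : Equiv.Perm ι) (v : L2 ι E) (k : ι) :
    (perm E σ v) k = v (σ k) := rfl

omit [CompleteSpace E] in
@[simp] lemma L2.mul_apply (a b : L2 ι E →L[ℂ] L2 ι E) (v : L2 ι E) : (a * b) v = a (b v) := rfl

lemma star_amp (a : E →L[ℂ] E) : star (amp ι a) = amp ι (star a) := by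
  rw [ContinuousLinearMap.star_eq_adjoint, eq_comm, ContinuousLinearMap.eq_adjoint_iff]
  intro x y
  rw [lp.inner_eq_tsum, lp.inner_eq_tsum]
  refine tsum_congr fun k => ?_
  rw [amp_apply, amp_apply, ContinuousLinearMap.star_eq_adjoint,
    ContinuousLinearMap.adjoint_inner_left]

lemma star_scal (c : ι → ℂ) (hc : ∀ k, ‖c k‖ ≤ 1) (hr : ∀ k, (starRingEnd ℂ) (c k) = c k) :
    star (scal E c hc) = scal E c hc := by
  rw [ContinuousLinearMap.star_eq_adjoint, eq_comm, ContinuousLinearMap.eq_adjoint_iff]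
  intro x y
  rw [lp.inner_eq_tsum, lp.inner_eq_tsum]
  refine tsum_congr fun k => ?_
  rw [scal_apply, scal_apply, inner_smul_left, inner_smul_right, hr]

lemma star_proj (p : ι → Prop) [DecidablePred p] : star (proj E p) = proj E p :=
  star_scal _ _ fun k => by split_ifs <;> simp

lemma star_perm (σ : Equiv.Perm ι) : star (perm E σ) = perm E σ.symm := by
  rw [ContinuousLinearMap.star_eq_adjoint, eq_comm, ContinuousLinearMap.eq_adjoint_iff]
  intro x y
  rw [lp.inner_eq_tsum, lp.inner_eq_tsum, ← σ.tsum_eq]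
  refine tsum_congr fun k => ?_
  simp

/-- amplification as a star algebra homomorphism -/
noncomputable def ampHom (ι : Type) (E : Type) [NormedAddCommGroup E] [InnerProductSpace ℂ E]
    [CompleteSpace E] : (E →L[ℂ] E) →⋆ₐ[ℂ] (L2 ι E →L[ℂ] L2 ι E) where
  toFun := amp ι
  map_one' := L2.op_ext fun v k => by simp
  map_mul' a b := L2.op_ext fun v k => by simp
  map_zero' := L2.op_ext fun v k => by simp
  map_add' a b := L2.op_ext fun v k => by simp
  commutes' r := L2.op_ext fun v k => by simp [Algebra.algebraMap_eq_smul_one]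
  map_star' a := (star_amp a).symm

@[simp] lemma ampHom_apply (a : E →L[ℂ] E) (v : L2 ι E) (k : ι) :
    (ampHom ι E a v) k = a (v k) := rfl

lemma norm_ampHom_le (a : E →L[ℂ] E) : ‖ampHom ι E a‖ ≤ ‖a‖ := norm_amp_le a

lemma scal_comm (c : ι → ℂ) (hc : ∀ k, ‖c k‖ ≤ 1) (a : E →L[ℂ] E) :
    ampHom ι E a * scal E c hc = scal E c hc * ampHom ι E a :=
  L2.op_ext fun v k => by simp

lemma proj_comm (p : ι → Prop) [DecidablePred p] (a : E →L[ℂ] E) :
    ampHom ι E a * proj E p = proj E p * ampHom ι E a := scal_comm _ _ a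

lemma perm_comm (σ : Equiv.Perm ι) (a : E →L[ℂ] E) :
    ampHom ι E a * perm E σ = perm E σ * ampHom ι E a :=
  L2.op_ext fun v k => by simp

lemma cpt_proj_eq_amp [DecidableEq ι] (j : ι) {K : E →L[ℂ] E} (hK : Cpt K) :
    Cpt (proj E (fun k => k = j) * ampHom ι E K) := by
  have h : IsCompactOperator ((lp.singleContinuousLinearMap ℂ (fun _ : ι => E) 2 j) ∘L
      (K ∘L lp.evalCLM ℂ (fun _ : ι => E) 2 j)) :=
    (IsCompactOperator.clm_comp (IsCompactOperator.comp_clm hK
      (lp.evalCLM ℂ (fun _ : ι => E) 2 j)) (lp.singleContinuousLinearMap ℂ (fun _ : ι => E) 2 j) :)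
  refine Cpt.of_eq (a := (lp.singleContinuousLinearMap ℂ (fun _ : ι => E) 2 j) ∘L
      (K ∘L lp.evalCLM ℂ (fun _ : ι => E) 2 j)) h (L2.op_ext fun v k => ?_)
  by_cases hk : k = j
  · subst hk; simp [lp.evalCLM]
  · simp [hk, lp.single_apply, Pi.single_eq_of_ne hk]

lemma cpt_proj_lt_amp (n : ℕ) {K : E →L[ℂ] E} (hK : Cpt K) :
    Cpt (proj E (fun k : ℕ => k < n) * ampHom ℕ E K) := by
  induction n with
  | zero => exact Cpt.zero.of_eq (L2.op_ext fun v k => by simp)
  | succ n ih =>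
    refine (ih.add (cpt_proj_eq_amp n hK)).of_eq (L2.op_ext fun v k => ?_)
    simp only [L2.mul_apply, proj_apply, ContinuousLinearMap.add_apply, lp.coeFn_add, Pi.add_apply]
    split_ifs <;> first | omega | simp

end Pool.Agent.H250Z.WvN
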