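import Pool.Agent.H250Z.WvN.Fred

/-! The abstract homotopy argument. -/

set_option autoImplicit false

open Filter Topology

namespace Pool.Agent.H250Z.WvN

variable {X : Type*} [NormedAddCommGroup X] [InnerProductSpace ℂ X] [CompleteSpace X]

/-- an increasing family of contractive idempotents -/
structure PFam (P : ℕ → X →L[ℂ] X) : Prop where
  mul : ∀ m n, m ≤ n → P n * P m = P m
  norm_le : ∀ n, ‖P n‖ ≤ 1
  norm_one_sub_le : ∀ n, ‖1 - P n‖ ≤ 1

/-- columns decay -/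
def M1 (P : ℕ → X →L[ℂ] X) (a : X →L[ℂ] X) : Prop :=
  ∀ m, ∀ ε > 0, ∀ᶠ N in atTop, ‖(1 - P N) * a * P m‖ ≤ ε

/-- essentially small tails -/
def I1 (P : ℕ → X →L[ℂ] X) (a : X →L[ℂ] X) : Prop :=
  ∀ ε > 0, ∀ᶠ n in atTop, ∀ m, ∃ K, Cpt K ∧ ‖(1 - P n) * a * P m - K‖ ≤ ε

variable {P : ℕ → X →L[ℂ] X}

omit [CompleteSpace X] in
lemma norm_mul3 (a b c : X →L[ℂ] X) {x y z : ℝ} (ha : ‖a‖ ≤ x) (hb : ‖b‖ ≤ y) (hc : ‖c‖ ≤ z) :
    ‖a * b * c‖ ≤ x * y * z := by
  have h0 : 0 ≤ x := (norm_nonneg _).trans ha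
  have h1 : 0 ≤ y := (norm_nonneg _).trans hb
  calc ‖a * b * c‖ ≤ ‖a‖ * ‖b‖ * ‖c‖ :=
        (norm_mul_le _ _).trans (mul_le_mul_of_nonneg_right (norm_mul_le _ _) (norm_nonneg _))
    _ ≤ x * y * z := by gcongr

omit [CompleteSpace X] in
lemma norm_mul2 (a b : X →L[ℂ] X) {x y : ℝ} (ha : ‖a‖ ≤ x) (hb : ‖b‖ ≤ y) :
    ‖a * b‖ ≤ x * y := by
  have h0 : 0 ≤ x := (norm_nonneg _).trans ha
  calc ‖a * b‖ ≤ ‖a‖ * ‖b‖ := norm_mul_le _ _
    _ ≤ x * y := by gcongr

omit [CompleteSpace X] in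
lemma M1.of_eventually_zero {a : X →L[ℂ] X}
    (h : ∀ m, ∀ᶠ N in atTop, (1 - P N) * a * P m = 0) : M1 P a := by
  intro m ε hε
  filter_upwards [h m] with N hN
  rw [hN, norm_zero]; exact hε.le

omit [CompleteSpace X] in
lemma M1.one (hP : PFam P) : M1 P 1 := by
  refine M1.of_eventually_zero fun m => ?_
  filter_upwards [eventually_ge_atTop m] with N hN
  rw [mul_one, sub_mul, one_mul, hP.mul m N hN, sub_self]

omit [CompleteSpace X] in
lemma M1.add {a b : X →L[ℂ] X} (ha : M1 P a) (hb : M1 P b) : M1 P (a + b) := by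
  intro m ε hε
  filter_upwards [ha m (ε / 2) (by positivity), hb m (ε / 2) (by positivity)] with N h1 h2
  rw [mul_add, add_mul]
  exact (norm_add_le _ _).trans (by linarith)

omit [CompleteSpace X] in
lemma M1.smul {a : X →L[ℂ] X} (ha : M1 P a) (c : ℂ) : M1 P (c • a) := by
  intro m ε hε
  filter_upwards [ha m (ε / (‖c‖ + 1)) (by positivity)] with N h1
  rw [mul_smul_comm, smul_mul_assoc, norm_smul]
  calc ‖c‖ * ‖(1 - P N) * a * P m‖ ≤ (‖c‖ + 1) * (ε / (‖c‖ + 1)) := by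
        gcongr; linarith
    _ = ε := by field_simp

omit [CompleteSpace X] in
lemma M1.mul (hP : PFam P) {a b : X →L[ℂ] X} (ha : M1 P a) (hb : M1 P b) : M1 P (a * b) := by
  intro m ε hε
  obtain ⟨l, hl⟩ := (hb m (ε / 2 / (‖a‖ + 1)) (by positivity)).exists
  filter_upwards [ha l (ε / 2 / (‖b‖ + 1)) (by positivity)] with N hN
  have e : (1 - P N) * (a * b) * P m
      = ((1 - P N) * a * P l) * b * P m + (1 - P N) * a * ((1 - P l) * b * P m) := by
    noncomm_ring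
  rw [e]
  have h1 := norm_mul3 _ b _ hN (show ‖b‖ ≤ ‖b‖ + 1 by linarith) (hP.norm_le m)
  have h2 := norm_mul3 _ a _ (hP.norm_one_sub_le N) (show ‖a‖ ≤ ‖a‖ + 1 by linarith) hl
  have e1 : ε / 2 / (‖b‖ + 1) * (‖b‖ + 1) * 1 = ε / 2 := by field_simp
  have e2 : 1 * (‖a‖ + 1) * (ε / 2 / (‖a‖ + 1)) = ε / 2 := by field_simp
  exact (norm_add_le _ _).trans (by linarith)

/-- `M1` as a subalgebra -/
def M1alg (hP : PFam P) : Subalgebra ℂ (X →L[ℂ] X) where
  carrier := {a | M1 P a}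
  mul_mem' := fun ha hb => M1.mul hP ha hb
  add_mem' := fun ha hb => M1.add ha hb
  algebraMap_mem' := fun r => by
    rw [Algebra.algebraMap_eq_smul_one]; exact (M1.one hP).smul r

omit [CompleteSpace X] in
lemma isClosed_M1alg (hP : PFam P) : IsClosed (M1alg hP : Set (X →L[ℂ] X)) := by
  refine isClosed_of_closure_subset fun a ha => ?_
  intro m ε hε
  obtain ⟨b, hb, hab⟩ := Metric.mem_closure_iff.1 ha (ε / 2) (by positivity)
  rw [dist_eq_norm] at hab
  filter_upwards [hb m (ε / 2) (by positivity)] with N hN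
  have e : (1 - P N) * a * P m = (1 - P N) * (a - b) * P m + (1 - P N) * b * P m := by
    noncomm_ring
  rw [e]
  have h1 := norm_mul3 _ _ _ (hP.norm_one_sub_le N) hab.le (hP.norm_le m)
  exact (norm_add_le _ _).trans (by linarith)

lemma M1.cfc (hP : PFam P) (f : ℂ → ℂ) {a : X →L[ℂ] X} (ha : M1 P a) (hs : IsSelfAdjoint a) :
    M1 P (cfc f a) :=
  cfc_mem_of_closed (M1alg hP) (isClosed_M1alg hP) f (show a ∈ M1alg hP from ha)
    (show star a ∈ M1alg hP by rw [hs.star_eq]; exact ha)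

omit [CompleteSpace X] in
lemma M1.sub {a b : X →L[ℂ] X} (ha : M1 P a) (hb : M1 P b) : M1 P (a - b) := by
  have := ha.add (hb.smul (-1))
  rwa [neg_one_smul, ← sub_eq_add_neg] at this

omit [CompleteSpace X] in
lemma I1.add {a b : X →L[ℂ] X} (ha : I1 P a) (hb : I1 P b) : I1 P (a + b) := by
  intro ε hε
  filter_upwards [ha (ε / 2) (by positivity), hb (ε / 2) (by positivity)] with N h1 h2 m
  obtain ⟨K, hK, h1⟩ := h1 m
  obtain ⟨L, hL, h2⟩ := h2 m
  refine ⟨K + L, hK.add hL, ?_⟩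
  have e : (1 - P N) * (a + b) * P m - (K + L)
      = ((1 - P N) * a * P m - K) + ((1 - P N) * b * P m - L) := by noncomm_ring
  rw [e]
  exact (norm_add_le _ _).trans (by linarith)

omit [CompleteSpace X] in
lemma I1.mul_left (hP : PFam P) {a r : X →L[ℂ] X} (ha : I1 P a) (hr : M1 P r) : I1 P (r * a) := by
  intro ε hε
  obtain ⟨l, hl⟩ := (ha (ε / 2 / (‖r‖ + 1)) (by positivity)).exists
  filter_upwards [hr l (ε / 2 / (‖a‖ + 1)) (by positivity)] with N hN m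
  obtain ⟨K, hK, hl⟩ := hl m
  refine ⟨(1 - P N) * r * K, hK.mul_left _, ?_⟩
  have e : (1 - P N) * (r * a) * P m - (1 - P N) * r * K
      = ((1 - P N) * r * P l) * a * P m + (1 - P N) * r * ((1 - P l) * a * P m - K) := by
    noncomm_ring
  rw [e]
  have h1 := norm_mul3 _ a _ hN (show ‖a‖ ≤ ‖a‖ + 1 by linarith) (hP.norm_le m)
  have h2 := norm_mul3 _ r _ (hP.norm_one_sub_le N) (show ‖r‖ ≤ ‖r‖ + 1 by linarith) hl
  have e1 : ε / 2 / (‖a‖ + 1) * (‖a‖ + 1) * 1 = ε / 2 := by field_simp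
  have e2 : 1 * (‖r‖ + 1) * (ε / 2 / (‖r‖ + 1)) = ε / 2 := by field_simp
  exact (norm_add_le _ _).trans (by linarith)

omit [CompleteSpace X] in
lemma I1.mul_right (hP : PFam P) {a r : X →L[ℂ] X} (ha : I1 P a) (hr : M1 P r) :
    I1 P (a * r) := by
  intro ε hε
  filter_upwards [ha (ε / 2 / (‖r‖ + 1)) (by positivity)] with N hN m
  obtain ⟨l, hl⟩ := (hr m (ε / 2 / (‖a‖ + 1)) (by positivity)).exists
  obtain ⟨K, hK, hN⟩ := hN l
  refine ⟨K * r * P m, (hK.mul_right _).mul_right _, ?_⟩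
  have e : (1 - P N) * (a * r) * P m - K * r * P m
      = ((1 - P N) * a * P l - K) * r * P m + (1 - P N) * a * ((1 - P l) * r * P m) := by
    noncomm_ring
  rw [e]
  have h1 := norm_mul3 _ r _ hN (show ‖r‖ ≤ ‖r‖ + 1 by linarith) (hP.norm_le m)
  have h2 := norm_mul3 _ a _ (hP.norm_one_sub_le N) (show ‖a‖ ≤ ‖a‖ + 1 by linarith) hl
  have e1 : ε / 2 / (‖r‖ + 1) * (‖r‖ + 1) * 1 = ε / 2 := by field_simp
  have e2 : 1 * (‖a‖ + 1) * (ε / 2 / (‖a‖ + 1)) = ε / 2 := by field_simp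
  exact (norm_add_le _ _).trans (by linarith)

omit [CompleteSpace X] in
lemma I1.smul (hP : PFam P) {a : X →L[ℂ] X} (ha : I1 P a) (c : ℂ) : I1 P (c • a) := by
  have := ha.mul_left hP ((M1.one hP).smul c)
  rwa [smul_mul_assoc, one_mul] at this

omit [CompleteSpace X] in
lemma I1.sub (hP : PFam P) {a b : X →L[ℂ] X} (ha : I1 P a) (hb : I1 P b) : I1 P (a - b) := by
  have := ha.add (hb.smul hP (-1))
  rwa [neg_one_smul, ← sub_eq_add_neg] at this

/-- the compression -/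
def cn (P : ℕ → X →L[ℂ] X) (n : ℕ) (u : X →L[ℂ] X) : X →L[ℂ] X := P n * u * P n + (1 - P n)

/-- eventually index zero -/
def Pp (P : ℕ → X →L[ℂ] X) (u : X →L[ℂ] X) : Prop := ∀ᶠ n in atTop, Ind0 (cn P n u)

lemma step (hP : PFam P) {u v u' i : X →L[ℂ] X} (huv : u * v = 1) (hu : ‖u‖ ≤ 1) (hv : ‖v‖ ≤ 1)
    (hi : I1 P i) (hvi : ‖v - 1 - i‖ ≤ 1 / 4) (hu' : ‖u' - u‖ ≤ 1 / 4) :
    (Pp P u ↔ Pp P u') := by
  have key : ∀ᶠ n in atTop, ∀ w, ‖w - u‖ ≤ 1 / 4 → Ind0 (cn P n w * cn P n v) := by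
    filter_upwards [hi (1 / 4) (by norm_num)] with n hn w hw
    obtain ⟨K, hK, hn⟩ := hn n
    have hpp : P n * P n = P n := hP.mul n n le_rfl
    have hpp' : ∀ z, P n * (P n * z) = P n * z := fun z => by rw [← mul_assoc, hpp]
    have huv' : ∀ z, u * (v * z) = z := fun z => by rw [← mul_assoc, huv, one_mul]
    set d := (P n * u) * ((1 - P n) * (v - 1 - i) * P n) + (P n * u) * ((1 - P n) * i * P n - K)
      - (P n * (w - u) * P n) * (v * P n) with hd
    have hpu : ‖P n * u‖ ≤ 1 := by simpa using norm_mul2 _ _ (hP.norm_le n) hu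
    have hvp : ‖v * P n‖ ≤ 1 := by simpa using norm_mul2 _ _ hv (hP.norm_le n)
    have h1 := norm_mul2 _ _ hpu (norm_mul3 _ _ _ (hP.norm_one_sub_le n) hvi (hP.norm_le n))
    have h2 := norm_mul2 _ _ hpu hn
    have h3 := norm_mul2 _ _ (norm_mul3 _ _ _ (hP.norm_le n) hw (hP.norm_le n)) hvp
    have hdn : ‖d‖ < 1 := by
      have := (norm_sub_le _ _).trans (add_le_add_left (norm_add_le
        ((P n * u) * ((1 - P n) * (v - 1 - i) * P n)) ((P n * u) * ((1 - P n) * i * P n - K)))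
        ‖(P n * (w - u) * P n) * (v * P n)‖)
      rw [hd]; linarith
    refine Ind0.of_norm_lt hdn (((hK.mul_left (P n * u)).neg).of_eq ?_)
    simp only [cn, hd, mul_add, add_mul, mul_sub, sub_mul, mul_one, one_mul, mul_assoc, hpp, hpp',
      huv']
    abel
  constructor
  · intro h
    filter_upwards [key, h] with n hk hn
    exact (hk u' hu').of_mul_right ((hk u (by simp)).of_mul_left hn)
  · intro h
    filter_upwards [key, h] with n hk hn
    exact (hk u (by simp)).of_mul_right ((hk u' hu').of_mul_left hn)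

lemma Pp_one (hP : PFam P) : Pp P 1 := by
  refine Eventually.of_forall fun n => ⟨1, Cpt.zero.of_eq ?_⟩
  simp [cn, hP.mul n n le_rfl]

end Pool.Agent.H250Z.WvN
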