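import Pool.Agent.H250Z.WvN.Ops

/-! Toeplitz extension: the bilateral shift and the Hardy projection. -/

set_option autoImplicit false

open Filter Topology

namespace Pool.Agent.H250Z.WvN

/-- `ℓ²(ℤ)` -/
abbrev HH : Type := L2 ℤ ℂ

/-- bilateral shift -/
noncomputable def UU : HH →L[ℂ] HH := perm ℂ (Equiv.subRight (1 : ℤ))

/-- Hardy projection -/
noncomputable def qq : HH →L[ℂ] HH := proj ℂ (fun k : ℤ => 0 ≤ k)

lemma UU_apply (v : HH) (k : ℤ) : (UU v) k = v (k - 1) := rfl

lemma star_UU_apply (v : HH) (k : ℤ) : (star UU v) k = v (k + 1) := by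
  rw [UU, star_perm]; rfl

lemma qq_apply (v : HH) (k : ℤ) : (qq v) k = if 0 ≤ k then v k else 0 := proj_apply _ _ _

lemma star_qq : star qq = qq := star_proj _

lemma qq_mul_qq : qq * qq = qq := L2.op_ext fun v k => by
  simp only [L2.mul_apply, qq_apply]; split_ifs <;> rfl

lemma norm_qq : ‖qq‖ ≤ 1 := norm_proj_le _

lemma star_UU_mul : star UU * UU = 1 := L2.op_ext fun v k => by
  simp [star_UU_apply, UU_apply]

lemma UU_mul_star : UU * star UU = 1 := L2.op_ext fun v k => by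
  simp [star_UU_apply, UU_apply]

lemma UU_unitary : UU ∈ unitary (HH →L[ℂ] HH) := ⟨star_UU_mul, UU_mul_star⟩

lemma UU_normal : IsStarNormal UU := ⟨by rw [Commute, SemiconjBy, star_UU_mul, UU_mul_star]⟩

lemma qUq : qq * UU * qq = UU * qq := L2.op_ext fun v k => by
  simp only [L2.mul_apply, qq_apply, UU_apply]; split_ifs <;> first | omega | rfl

lemma cpt_star_UU : Cpt ((1 - qq) * star UU * qq) := by
  have h : IsCompactOperator ((lp.singleContinuousLinearMap ℂ (fun _ : ℤ => ℂ) 2 (-1)) ∘L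
      (lp.evalCLM ℂ (fun _ : ℤ => ℂ) 2 0)) :=
    (IsCompactOperator.clm_comp (isCompactOperator_of_locallyCompactSpace_dom
      (lp.evalCLM ℂ (fun _ : ℤ => ℂ) 2 0))
      (lp.singleContinuousLinearMap ℂ (fun _ : ℤ => ℂ) 2 (-1)) :)
  refine Cpt.of_eq (a := (lp.singleContinuousLinearMap ℂ (fun _ : ℤ => ℂ) 2 (-1)) ∘L
      (lp.evalCLM ℂ (fun _ : ℤ => ℂ) 2 0)) h (L2.op_ext fun v k => ?_)
  by_cases hk : k = -1
  · subst hk; simp [lp.evalCLM, qq_apply, star_UU_apply]
  · simp only [L2.mul_apply, ContinuousLinearMap.sub_apply, ContinuousLinearMap.one_apply,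
      lp.coeFn_sub, Pi.sub_apply, qq_apply, star_UU_apply, ContinuousLinearMap.comp_apply,
      lp.singleContinuousLinearMap_apply, lp.single_apply, Pi.single_eq_of_ne hk]
    split_ifs <;> first | omega | simp

/-- operators with compact lower-left corner -/
noncomputable def Dalg : Subalgebra ℂ (HH →L[ℂ] HH) where
  carrier := {a | Cpt ((1 - qq) * a * qq)}
  mul_mem' := fun {a b} ha hb => by
    refine (((Cpt.mul_left hb ((1 - qq) * a))).add ((Cpt.mul_right ha (b * qq)))).of_eq ?_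
    noncomm_ring
  add_mem' := fun {a b} ha hb => (Cpt.add ha hb).of_eq (by noncomm_ring)
  algebraMap_mem' := fun r => by
    refine Cpt.zero.of_eq ?_
    rw [Algebra.algebraMap_eq_smul_one, mul_smul_comm, smul_mul_assoc, mul_one, sub_mul, one_mul,
      qq_mul_qq, sub_self, smul_zero]

lemma isClosed_Dalg : IsClosed (Dalg : Set (HH →L[ℂ] HH)) :=
  Cpt.isClosed.preimage (f := fun a : HH →L[ℂ] HH => (1 - qq) * a * qq) (by fun_prop)

/-- the spectrum of the shift -/
abbrev SS : Type := spectrum ℂ UU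

/-- functional calculus of the shift -/
noncomputable def Phi : C(SS, ℂ) →⋆ₐ[ℂ] (HH →L[ℂ] HH) := cfcHom UU_normal

lemma cpt_Phi (f : C(SS, ℂ)) : Cpt ((1 - qq) * Phi f * qq) := by
  refine cfcHom_mem_of_closed Dalg isClosed_Dalg UU_normal f ?_ cpt_star_UU
  refine Cpt.zero.of_eq ?_
  rw [sub_mul, sub_mul, one_mul, qUq, sub_self]

lemma norm_Phi (f : C(SS, ℂ)) : ‖Phi f‖ = ‖f‖ := norm_cfcHom UU f UU_normal

/-- the coordinate function -/
noncomputable def zz : C(SS, ℂ) := ⟨fun z => (z : ℂ), continuous_subtype_val⟩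

lemma Phi_zz : Phi zz = UU := cfcHom_id UU_normal

lemma norm_SS (z : SS) : ‖(z : ℂ)‖ = 1 := by
  have := spectrum.subset_circle_of_unitary UU_unitary z.2
  simpa using this

lemma re_sq_add_im_sq (z : SS) : (z : ℂ).re ^ 2 + (z : ℂ).im ^ 2 = 1 := by
  have := norm_SS z
  have h2 : ‖(z : ℂ)‖ ^ 2 = 1 := by rw [this]; norm_num
  rw [Complex.sq_norm, Complex.normSq_apply] at h2
  linarith

end Pool.Agent.H250Z.WvN
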